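import Pool.Agent.H5.DG2.TrLt
import Pool.Agent.H5.DG.CovAlg

/-!
# A codimension two set, projected

PROOF.  Let `𝔞 = P ⊔ span {aeval F A, aeval F B}` and let `q` be a minimal prime of `𝔞` (finitely many: `Ideal.finite_minimalPrimes_of_isNoetherianRing`).
`q' = q.comap (aeval F)` is a prime ideal of `ℂ[Y]` (`r + 2` variables) which contains `A` and `B`.  `TD ⊥ (r + 2)` (transcendence degree of the
polynomial ring), `⊥ < span {A} < q'` (`A` is prime, `B ∉ span {A}`), so `TD q' r` by `TD.lt` twice.  By `exists_relation` (module CovAlg) every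
`X i ^ e`, so every `X i`, is modulo `q` integral over the image of `ℂ[Y]`, so every polynomial is (modulo `q`) algebraic over the image of `ℂ[Y] ⧸ q'`; hence
the `r + 1` elements `Λ a` are algebraically dependent modulo `q`: otherwise `ℂ[Y] ⧸ q'` would have `r + 1` independent elements (exchange:
`IsTranscendenceBasis`/`Algebra.trdeg`; the fraction field of `ℂ[X] ⧸ q` is algebraic over that of the image of `ℂ[Y]`, so it has a transcendence basis
among the images of the `Y a`, with at most `r` elements by `TD q' r`).  So there is `R q ≠ 0` with `aeval Λ (R q) ∈ q`.  `R = ∏ R q`.  If `y` is a zero of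
`P`, `aeval F A`, `aeval F B` then the kernel of `eval y` is a prime ideal which contains `𝔞`, so it contains some minimal prime `q`
(`Ideal.exists_minimalPrimes_le`) and `eval y (aeval Λ (R q)) = 0`.  If there is no minimal prime (`𝔞 = ⊤`) take `R = 1`: there is no such `y`.
-/

open MvPolynomial
open Pool.Agent.H5.DG (Homog BaseFree)

noncomputable section

namespace Pool.Agent.H39.SX

open Pool.Agent.H5.DG (TD TD.lt)

/-- Polynomials in `r + 2` variables have transcendence degree at most `r + 2`. -/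
private theorem Alg_TD_bot (n : ℕ) : TD (⊥ : Ideal (MvPolynomial (Fin n) ℂ)) n := by
  intro f hf
  have h1 : AlgebraicIndependent ℂ f :=
    AlgebraicIndependent.of_comp (Ideal.Quotient.mkₐ ℂ (⊥ : Ideal (MvPolynomial (Fin n) ℂ))) hf
  have h2 := h1.cardinalMk_le_trdeg
  rw [MvPolynomial.trdeg_of_isDomain, Cardinal.mk_fin, Cardinal.mk_fin] at h2
  simp only [Cardinal.lift_natCast] at h2
  have h3 : n + 1 ≤ n := by exact_mod_cast h2
  omega

/-- A prime ideal which contains two polynomials without common factor. -/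
private theorem Alg_TD_two {r : ℕ} {Q : Ideal (MvPolynomial (Fin (r + 2)) ℂ)} (hQ : Q.IsPrime)
    {A B : MvPolynomial (Fin (r + 2)) ℂ} (hA : Irreducible A) (hAB : ¬ A ∣ B) (hAQ : A ∈ Q)
    (hBQ : B ∈ Q) : TD Q r := by
  have hP : (Ideal.span {A}).IsPrime := (Ideal.span_singleton_prime hA.ne_zero).2 hA.prime
  have h0 : (⊥ : Ideal (MvPolynomial (Fin (r + 2)) ℂ)) < Ideal.span {A} := by
    rw [bot_lt_iff_ne_bot]
    intro h
    rw [Ideal.span_singleton_eq_bot] at h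
    exact hA.ne_zero h
  have h1 : Ideal.span {A} < Q := by
    refine lt_of_le_of_ne ((Ideal.span_singleton_le_iff_mem _).2 hAQ) ?_
    intro h
    apply hAB
    rw [← Ideal.mem_span_singleton, h]
    exact hBQ
  have h2 : TD (Ideal.span {A}) (r + 1) :=
    TD.lt (Ideal.isPrime_bot) hP h0 (Alg_TD_bot (r + 2))
  exact TD.lt hP hQ h1 h2

/-- Every element of the quotient is integral over the polynomials in the forms. -/
private theorem Alg_int {N m e : ℕ} {P : Ideal (MvPolynomial (Fin (N + 1)) ℂ)} (hP : Homog P)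
    {F : Fin m → MvPolynomial (Fin (N + 1)) ℂ} (hF : BaseFree P e F)
    {q : Ideal (MvPolynomial (Fin (N + 1)) ℂ)} (hPq : P ≤ q) :
    Algebra.IsIntegral (Algebra.adjoin ℂ (Set.range fun a => Ideal.Quotient.mkₐ ℂ q (F a)))
      (MvPolynomial (Fin (N + 1)) ℂ ⧸ q) := by
  obtain ⟨S, hS⟩ : ∃ S : Subalgebra ℂ (MvPolynomial (Fin (N + 1)) ℂ ⧸ q),
    S = Algebra.adjoin ℂ (Set.range fun a => Ideal.Quotient.mkₐ ℂ q (F a)) := ⟨_, rfl⟩
  rw [← hS]
  have hmem : ∀ c : MvPolynomial (Fin m) ℂ, Ideal.Quotient.mkₐ ℂ q (aeval F c) ∈ S := by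
    intro c
    rw [hS, Algebra.adjoin_range_eq_range_aeval]
    exact ⟨c, (comp_aeval_apply (f := F) (Ideal.Quotient.mkₐ ℂ q) c).symm⟩
  have hX : ∀ i, IsIntegral S (Ideal.Quotient.mkₐ ℂ q (X i)) := by
    intro i
    obtain ⟨s, c, hs, -, hrel⟩ := Pool.Agent.H5.DG.exists_relation hP hF i
    have h1 : Ideal.Quotient.mkₐ ℂ q
        ((X i ^ e) ^ s + ∑ t, aeval F (c t) * (X i ^ e) ^ (t : ℕ)) = 0 :=
      Ideal.Quotient.eq_zero_iff_mem.2 (hPq hrel)
    refine IsIntegral.of_pow hF.pos ?_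
    obtain ⟨p, hp⟩ : ∃ p : Polynomial S, p = Polynomial.X ^ s + ∑ t : Fin s,
      Polynomial.C (⟨Ideal.Quotient.mkₐ ℂ q (aeval F (c t)), hmem _⟩ : S) *
        Polynomial.X ^ (t : ℕ) := ⟨_, rfl⟩
    refine ⟨p, ?_, ?_⟩
    · rw [hp]
      exact Polynomial.monic_X_pow_add (Polynomial.degree_sum_fin_lt _)
    · rw [hp, Polynomial.eval₂_add, Polynomial.eval₂_finsetSum, Polynomial.eval₂_X_pow]
      rw [map_add, map_sum, map_pow, map_pow] at h1
      rw [← h1]
      congr 1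
      refine Finset.sum_congr rfl fun t _ => ?_
      rw [Polynomial.eval₂_mul, Polynomial.eval₂_C, Polynomial.eval₂_X_pow, map_mul, map_pow,
        map_pow]
      rfl
  refine ⟨fun z => ?_⟩
  obtain ⟨z, rfl⟩ := Ideal.Quotient.mkₐ_surjective ℂ q z
  induction z using MvPolynomial.induction_on with
  | C a =>
    have h1 : Ideal.Quotient.mkₐ ℂ q (C a) = algebraMap S _ (algebraMap ℂ S a) := rfl
    rw [h1]
    exact isIntegral_algebraMap
  | add p p' hp hp' =>
    rw [map_add]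
    exact hp.add hp'
  | mul_X p i hp =>
    rw [map_mul]
    exact hp.mul (hX i)

/-- The relation modulo one prime ideal. -/
private theorem Alg_one {N r e : ℕ} {P : Ideal (MvPolynomial (Fin (N + 1)) ℂ)} (hP : Homog P)
    {F : Fin (r + 2) → MvPolynomial (Fin (N + 1)) ℂ} (hF : BaseFree P e F)
    {A B : MvPolynomial (Fin (r + 2)) ℂ} (hA : Irreducible A) (hAB : ¬ A ∣ B)
    (Λ : Fin (r + 1) → MvPolynomial (Fin (N + 1)) ℂ)
    {q : Ideal (MvPolynomial (Fin (N + 1)) ℂ)} (hq : q.IsPrime) (hPq : P ≤ q)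
    (hAq : aeval F A ∈ q) (hBq : aeval F B ∈ q) :
    ∃ R : MvPolynomial (Fin (r + 1)) ℂ, R ≠ 0 ∧ aeval Λ R ∈ q := by
  by_contra hcon
  have hΛ : AlgebraicIndependent ℂ fun i => Ideal.Quotient.mkₐ ℂ q (Λ i) := by
    rw [algebraicIndependent_iff]
    intro R hR
    by_contra hR0
    refine hcon ⟨R, hR0, ?_⟩
    rw [← Ideal.Quotient.eq_zero_iff_mem]
    rw [← hR]
    exact comp_aeval_apply (f := Λ) (Ideal.Quotient.mkₐ ℂ q) R
  have halg := (Alg_int hP hF hPq).isAlgebraic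
  have hinj : Function.Injective (algebraMap ℂ (MvPolynomial (Fin (N + 1)) ℂ ⧸ q)) :=
    RingHom.injective _
  have : FaithfulSMul ℂ (MvPolynomial (Fin (N + 1)) ℂ ⧸ q) :=
    (faithfulSMul_iff_algebraMap_injective _ _).2 hinj
  obtain ⟨t, ht, hbas⟩ := exists_isTranscendenceBasis_subset (R := ℂ)
    (Set.range fun a => Ideal.Quotient.mkₐ ℂ q (F a))
  have hcard : ((r + 1 : ℕ) : Cardinal) ≤ Cardinal.mk t := by
    rw [hbas.cardinalMk_eq_trdeg]
    have h1 := hΛ.cardinalMk_le_trdeg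
    rwa [Cardinal.mk_fin] at h1
  have hemb : Nonempty (Fin (r + 1) ↪ t) := by
    rw [← Cardinal.le_def, Cardinal.mk_fin]
    exact hcard
  obtain ⟨g⟩ := hemb
  choose a ha using fun i => ht (g i).2
  have hq' : (q.comap (aeval F : MvPolynomial (Fin (r + 2)) ℂ →ₐ[ℂ] _)).IsPrime :=
    Ideal.comap_isPrime _ _
  refine Alg_TD_two hq' hA hAB hAq hBq (fun i => X (a i)) ?_
  obtain ⟨π, hπ⟩ : ∃ π : (MvPolynomial (Fin (r + 2)) ℂ ⧸
      q.comap (aeval F : MvPolynomial (Fin (r + 2)) ℂ →ₐ[ℂ] MvPolynomial (Fin (N + 1)) ℂ)) →ₐ[ℂ]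
        (MvPolynomial (Fin (N + 1)) ℂ ⧸ q),
      ∀ x, π (Ideal.Quotient.mkₐ ℂ _ x) = Ideal.Quotient.mkₐ ℂ q (aeval F x) :=
    ⟨Ideal.Quotient.liftₐ _ ((Ideal.Quotient.mkₐ ℂ q).comp (aeval F)) fun x hx =>
      Ideal.Quotient.eq_zero_iff_mem.2 hx, fun x => rfl⟩
  refine AlgebraicIndependent.of_comp π ?_
  have h1 := hbas.1.comp g g.injective
  have h2 : (⇑π ∘ fun i => Ideal.Quotient.mkₐ ℂ
      (q.comap (aeval F : MvPolynomial (Fin (r + 2)) ℂ →ₐ[ℂ] MvPolynomial (Fin (N + 1)) ℂ))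
        (X (a i))) = ((↑) : t → MvPolynomial (Fin (N + 1)) ℂ ⧸ q) ∘ g := by
    funext i
    rw [Function.comp_apply, hπ, aeval_X]
    exact ha i
  rw [h2]
  exact h1

theorem exists_rel {N r e : ℕ} {P : Ideal (MvPolynomial (Fin (N + 1)) ℂ)} (hP : Homog P)
    {F : Fin (r + 2) → MvPolynomial (Fin (N + 1)) ℂ} (hF : BaseFree P e F)
    {A B : MvPolynomial (Fin (r + 2)) ℂ} (hA : Irreducible A) (hAB : ¬ A ∣ B)
    (Λ : Fin (r + 1) → MvPolynomial (Fin (N + 1)) ℂ) :
    ∃ R : MvPolynomial (Fin (r + 1)) ℂ, R ≠ 0 ∧ ∀ y : Fin (N + 1) → ℂ, (∀ Q ∈ P, eval y Q = 0) →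
      eval y (aeval F A) = 0 → eval y (aeval F B) = 0 → eval (fun a => eval y (Λ a)) R = 0 := by
  classical
  obtain ⟨𝔞, h𝔞⟩ : ∃ 𝔞 : Ideal (MvPolynomial (Fin (N + 1)) ℂ),
    𝔞 = P ⊔ Ideal.span {aeval F A, aeval F B} := ⟨_, rfl⟩
  have hfin : 𝔞.minimalPrimes.Finite := Ideal.finite_minimalPrimes_of_isNoetherianRing _ 𝔞
  have hPa : P ≤ 𝔞 := h𝔞 ▸ le_sup_left
  have hAa : aeval F A ∈ 𝔞 := by
    rw [h𝔞]
    exact Ideal.mem_sup_right (Ideal.subset_span (by simp))
  have hBa : aeval F B ∈ 𝔞 := by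
    rw [h𝔞]
    exact Ideal.mem_sup_right (Ideal.subset_span (by simp))
  have h1 : ∀ q : 𝔞.minimalPrimes, ∃ R : MvPolynomial (Fin (r + 1)) ℂ, R ≠ 0 ∧
      aeval Λ R ∈ q.1 := fun q =>
    Alg_one hP hF hA hAB Λ q.2.1.1 (hPa.trans q.2.1.2) (q.2.1.2 hAa) (q.2.1.2 hBa)
  choose R hR hRq using h1
  have : Fintype 𝔞.minimalPrimes := hfin.fintype
  refine ⟨∏ q, R q, Finset.prod_ne_zero_iff.2 fun q _ => hR q, fun y hy hyA hyB => ?_⟩
  obtain ⟨𝔪, h𝔪⟩ : ∃ 𝔪 : Ideal (MvPolynomial (Fin (N + 1)) ℂ), 𝔪 = RingHom.ker (eval y) :=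
    ⟨_, rfl⟩
  have hm : 𝔪.IsPrime := by
    rw [h𝔪]
    exact RingHom.ker_isPrime _
  have ham : 𝔞 ≤ 𝔪 := by
    rw [h𝔞, h𝔪]
    refine sup_le (fun Q hQ => (RingHom.mem_ker).2 (hy Q hQ)) (Ideal.span_le.2 ?_)
    rintro Q (rfl | hQ)
    · exact (RingHom.mem_ker).2 hyA
    · rw [Set.mem_singleton_iff] at hQ
      rw [hQ]
      exact (RingHom.mem_ker).2 hyB
  obtain ⟨q, hq, hqm⟩ := Ideal.exists_minimalPrimes_le (I := 𝔞) (J := 𝔪) ham
  have h2 : eval y (aeval Λ (R ⟨q, hq⟩)) = 0 := by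
    have h3 := hqm (hRq ⟨q, hq⟩)
    rw [h𝔪] at h3
    exact (RingHom.mem_ker).1 h3
  have h3 : eval (fun a => eval y (Λ a)) (R ⟨q, hq⟩) = 0 := by
    rw [← h2]
    rw [← MvPolynomial.coe_aeval_eq_eval, ← MvPolynomial.coe_aeval_eq_eval]
    exact comp_aeval_apply (f := Λ) (aeval y : MvPolynomial (Fin (N + 1)) ℂ →ₐ[ℂ] ℂ) _ |>.symm
  rw [map_prod]
  exact Finset.prod_eq_zero (Finset.mem_univ (⟨q, hq⟩ : 𝔞.minimalPrimes)) h3

private theorem Alg_totalDegree_pderiv {n : ℕ} {G : MvPolynomial (Fin n) ℂ} {b : Fin n}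
    (h : pderiv b G ≠ 0) : (pderiv b G).totalDegree < G.totalDegree := by
  classical
  have hlt : ∀ m ∈ (pderiv b G).support, (m.sum fun _ e => e) < G.totalDegree := by
    intro m hm
    rw [mem_support_iff, coeff_pderiv] at hm
    have h1 : coeff (m + Finsupp.single b 1) G ≠ 0 := fun h0 => hm (by rw [h0, zero_mul])
    have h2 := le_totalDegree (mem_support_iff.2 h1)
    rw [Finsupp.sum_add_index' (fun _ => rfl) (fun _ _ _ => rfl), Finsupp.sum_single_index rfl]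
      at h2
    omega
  obtain ⟨m, hm⟩ : (pderiv b G).support.Nonempty := support_nonempty.2 h
  have hpos : 0 < G.totalDegree := lt_of_le_of_lt (Nat.zero_le _) (hlt m hm)
  rw [totalDegree, Finset.sup_lt_iff hpos]
  exact hlt

/-- Some partial derivative of an irreducible polynomial is not divisible by it. -/
theorem exists_pderiv {n : ℕ} {G : MvPolynomial (Fin n) ℂ} (hG : Irreducible G) :
    ∃ b, ¬ G ∣ pderiv b G := by
  classical
  by_contra hcon
  push Not at hcon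
  have h0 : ∀ b, pderiv b G = 0 := by
    intro b
    by_contra hb
    obtain ⟨H, hH⟩ := hcon b
    have hH0 : H ≠ 0 := by
      rintro rfl
      rw [mul_zero] at hH
      exact hb hH
    have h1 := Alg_totalDegree_pderiv hb
    rw [hH, totalDegree_mul_of_isDomain hG.ne_zero hH0] at h1
    omega
  have h1 : G = C (coeff 0 G) := by
    ext m
    rw [coeff_C]
    split_ifs with h
    · rw [h]
    · have h2 : m ≠ 0 := fun h3 => h h3.symm
      obtain ⟨b, hb⟩ : ∃ b, m b ≠ 0 := by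
        by_contra h3
        push Not at h3
        exact h2 (Finsupp.ext h3)
      have h3 : coeff (m - Finsupp.single b 1) (pderiv b G) = 0 := by
        rw [h0 b, coeff_zero]
      rw [coeff_pderiv] at h3
      have h4 : m - Finsupp.single b 1 + Finsupp.single b 1 = m :=
        tsub_add_cancel_of_le (Finsupp.single_le_iff.2 (Nat.one_le_iff_ne_zero.2 hb))
      rw [h4] at h3
      rcases mul_eq_zero.1 h3 with h5 | h5
      · exact h5
      · exfalso
        exact Nat.cast_add_one_ne_zero _ h5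
  have h2 : coeff 0 G ≠ 0 := by
    intro h3
    rw [h3, C_0] at h1
    exact hG.ne_zero h1
  apply hG.not_isUnit
  rw [h1]
  exact (IsUnit.mk0 _ h2).map C

end Pool.Agent.H39.SX
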