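import Pool.Agent.H5.DG.CovAlg
import Pool.Agent.H13.SM.Pts

/-!
# The generic point of the cone

`coordFun P i` is the class of `X i` in the fraction field of `ℂ[X] ⧸ P`.

PROOFS.  `aeval_coordFun`: `aeval (coordFun P) Q = algebraMap _ _ (Ideal.Quotient.mk P Q)` (`MvPolynomial.algHom_ext`), which is zero iff `Q ∈ P`.
`mem_pts_coordFun` follows.  `adjoin_coordFun`: every element of the fraction field is a quotient of two elements `aeval (coordFun P) Q`
(`IsLocalization.mk'_surjective`/`IsFractionRing.div_surjective`).  `aeval_F_ne_zero`: if `aeval (fun a => aeval (coordFun P) (F a)) Q = 0` then `aeval F Q ∈ P`, so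
(`P` homogeneous, `F a` forms of degree `e ≥ 1`) `aeval F Q_d ∈ P` for the components `Q_d` (the component of degree `e d` of `aeval F Q` is `aeval F Q_d`), so
`Q_d = 0` by `delta_notMem` (module CovAlg) for all `d`.  `basis_F`: independent by this; every `coordFun P i` is integral: `exists_relation` (module CovAlg)
gives a monic relation for `X i ^ e` (`IsIntegral.of_pow`, `e ≥ 1`).  `IsTranscendenceBasis`: independent and the field is algebraic over it
(`isTranscendenceBasis_of` in `Pool.Agent.H92.GT.Index`, or `AlgebraicIndependent.isTranscendenceBasis_iff_isAlgebraic`).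
-/

open MvPolynomial
open Pool.Agent.H5.DG (Homog BaseFree)
open Pool.Agent.H17GT (coordFun)
open Pool.Agent.H17LG.Variety (FunField)
open Pool.Agent.H13.SM (pts)

noncomputable section

namespace Pool.Agent.H39.SX

variable {N r e : ℕ} {P : Ideal (MvPolynomial (Fin (N + 1)) ℂ)} [P.IsPrime]
  {F : Fin (r + 2) → MvPolynomial (Fin (N + 1)) ℂ}

private theorem coneBasis_homComp {m Nn e : ℕ} {F : Fin m → MvPolynomial (Fin (Nn + 1)) ℂ}
    (he : 1 ≤ e) (hF : ∀ a, (F a).IsHomogeneous e) (b : MvPolynomial (Fin m) ℂ) (j : ℕ) :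
    homogeneousComponent (e * j) (aeval F b) = aeval F (homogeneousComponent j b) := by
  have h1 : homogeneousComponent (e * j) (aeval F b) =
      ∑ i ∈ Finset.range (b.totalDegree + 1),
        homogeneousComponent (e * j) (aeval F (homogeneousComponent i b)) := by
    rw [← map_sum, ← map_sum, sum_homogeneousComponent]
  have h2 : ∀ i ∈ Finset.range (b.totalDegree + 1),
      homogeneousComponent (e * j) (aeval F (homogeneousComponent i b)) =
        if i = j then aeval F (homogeneousComponent j b) else 0 := by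
    intro i _
    have h3 : (aeval F (homogeneousComponent i b)) ∈ homogeneousSubmodule (Fin (Nn + 1)) ℂ
        (e * i) := (homogeneousComponent_isHomogeneous i b).aeval F hF
    rw [homogeneousComponent_of_mem h3]
    by_cases h : i = j
    · rw [if_pos (by rw [h]), if_pos h, h]
    · rw [if_neg (fun h4 => h (Nat.eq_of_mul_eq_mul_left (by omega) h4).symm), if_neg h]
  rw [h1, Finset.sum_congr rfl h2, Finset.sum_ite_eq']
  split_ifs with h
  · rfl
  · rw [homogeneousComponent_eq_zero _ _ (by
      rw [Finset.mem_range] at h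
      omega), map_zero]

private theorem coneBasis_aeval {m : ℕ} {K : Type} [Field K] [Algebra ℂ K] {x : Fin (N + 1) → K}
    {F : Fin m → MvPolynomial (Fin (N + 1)) ℂ} (Q : MvPolynomial (Fin m) ℂ) :
    aeval x (aeval F Q) = aeval (fun a => aeval x (F a)) Q := by
  rw [← AlgHom.comp_apply, MvPolynomial.comp_aeval]

theorem aeval_coordFun {Q : MvPolynomial (Fin (N + 1)) ℂ} : aeval (coordFun P) Q = 0 ↔ Q ∈ P := by
  exact Pool.Agent.H92.GT.Proj.aeval_coordFun_eq_zero_iff P Q

theorem mem_pts_coordFun {w : Fin (N + 1) → ℂ} :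
    w ∈ pts (coordFun P) ↔ ∀ Q ∈ P, eval w Q = 0 := by
  constructor
  · intro h Q hQ
    exact h Q (aeval_coordFun.2 hQ)
  · intro h Q hQ
    exact h Q (aeval_coordFun.1 hQ)

theorem adjoin_coordFun : IntermediateField.adjoin ℂ (Set.range (coordFun P)) = ⊤ := by
  rw [eq_top_iff]
  intro z _
  have key : ∀ y : MvPolynomial (Fin (N + 1)) ℂ ⧸ P,
      algebraMap (MvPolynomial (Fin (N + 1)) ℂ ⧸ P)
        (FractionRing (MvPolynomial (Fin (N + 1)) ℂ ⧸ P)) y ∈
      IntermediateField.adjoin ℂ (Set.range (coordFun P)) := by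
    intro y
    obtain ⟨Q, rfl⟩ := Ideal.Quotient.mk_surjective y
    have h8 : (aeval (coordFun P) : MvPolynomial (Fin (N + 1)) ℂ →ₐ[ℂ] _) =
        (IsScalarTower.toAlgHom ℂ (MvPolynomial (Fin (N + 1)) ℂ ⧸ P)
          (FractionRing (MvPolynomial (Fin (N + 1)) ℂ ⧸ P))).comp (Ideal.Quotient.mkₐ ℂ P) := by
      apply MvPolynomial.algHom_ext
      intro i
      rw [aeval_X]
      rfl
    have h9 : algebraMap (MvPolynomial (Fin (N + 1)) ℂ ⧸ P)
        (FractionRing (MvPolynomial (Fin (N + 1)) ℂ ⧸ P)) (Ideal.Quotient.mk P Q) =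
        aeval (coordFun P) Q := by
      rw [h8]
      rfl
    rw [h9]
    exact IntermediateField.algebra_adjoin_le_adjoin ℂ _
      (Pool.Agent.H13.SM.aeval_mem_adjoin (coordFun P) Q)
  obtain ⟨x, y, -, rfl⟩ := IsFractionRing.div_surjective (A := MvPolynomial (Fin (N + 1)) ℂ ⧸ P) z
  exact div_mem (key x) (key y)

theorem aeval_F_ne_zero (hP : Homog P) (hF : BaseFree P e F)
    (hz : ∃ z : Fin (r + 1) → FunField P, IsTranscendenceBasis ℂ z)
    {Q : MvPolynomial (Fin (r + 2)) ℂ} (hQ : Q ≠ 0) : aeval F Q ∉ P := by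
  intro hcon
  obtain ⟨d, hd⟩ : ∃ d, homogeneousComponent d Q ≠ 0 := by
    by_contra hall
    push Not at hall
    apply hQ
    rw [← sum_homogeneousComponent Q]
    exact Finset.sum_eq_zero fun i _ => hall i
  have h1 := hP _ hcon (e * d)
  rw [coneBasis_homComp hF.pos hF.hom] at h1
  exact Pool.Agent.H5.DG.delta_notMem P hP hF hz hd (homogeneousComponent_isHomogeneous d Q) h1

theorem integral_F (hP : Homog P) (hF : BaseFree P e F) (i : Fin (N + 1)) :
    IsIntegral (Algebra.adjoin ℂ (Set.range fun a => aeval (coordFun P) (F a)))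
      (coordFun P i) := by
  obtain ⟨s, c, hs, hc, hrel⟩ := Pool.Agent.H5.DG.exists_relation hP hF i
  have h1 := (aeval_coordFun (P := P)).2 hrel
  rw [map_add, map_sum, map_pow, map_pow, aeval_X] at h1
  have hco : ∀ t : Fin s, aeval (coordFun P) (aeval F (c t)) ∈
      Algebra.adjoin ℂ (Set.range fun a => aeval (coordFun P) (F a)) := by
    intro t
    rw [coneBasis_aeval]
    exact Pool.Agent.H13.SM.aeval_mem_adjoin _ _
  refine IsIntegral.of_pow (n := e) (by have := hF.pos; omega) ?_
  refine ⟨Polynomial.X ^ s + ∑ t : Fin s, Polynomial.C (⟨_, hco t⟩ :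
    Algebra.adjoin ℂ (Set.range fun a => aeval (coordFun P) (F a))) * Polynomial.X ^ (t : ℕ),
    Polynomial.monic_X_pow_add (Polynomial.degree_sum_fin_lt _), ?_⟩
  rw [← h1, Polynomial.eval₂_add, Polynomial.eval₂_X_pow, Polynomial.eval₂_finsetSum]
  congr 1
  refine Finset.sum_congr rfl fun t _ => ?_
  rw [Polynomial.eval₂_mul, Polynomial.eval₂_C, Polynomial.eval₂_X_pow, map_mul, map_pow, map_pow,
    aeval_X]
  rfl

theorem basis_F (hP : Homog P) (hF : BaseFree P e F)
    (hz : ∃ z : Fin (r + 1) → FunField P, IsTranscendenceBasis ℂ z) :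
    IsTranscendenceBasis ℂ (fun a => aeval (coordFun P) (F a)) := by
  have hind : AlgebraicIndependent ℂ (fun a => aeval (coordFun P) (F a)) := by
    rw [algebraicIndependent_iff]
    intro Q hQ
    by_contra hne
    apply aeval_F_ne_zero hP hF hz hne
    rw [← aeval_coordFun, coneBasis_aeval]
    exact hQ
  rw [hind.isTranscendenceBasis_iff_isAlgebraic]
  obtain ⟨A', hA'⟩ : ∃ A', A' = Algebra.adjoin ℂ (Set.range fun a => aeval (coordFun P) (F a)) :=
    ⟨_, rfl⟩
  have hint : ∀ i, IsIntegral A' (coordFun P i) := by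
    intro i
    rw [hA']
    exact integral_F hP hF i
  rw [← hA']
  refine ⟨fun z => ?_⟩
  have hz : z ∈ IntermediateField.adjoin ℂ (Set.range (coordFun P)) := by
    rw [adjoin_coordFun]
    trivial
  induction hz using IntermediateField.adjoin_induction with
  | mem y hy =>
    obtain ⟨i, rfl⟩ := hy
    exact (hint i).isAlgebraic
  | algebraMap c =>
    have h1 : algebraMap ℂ (FractionRing (MvPolynomial (Fin (N + 1)) ℂ ⧸ P)) c =
        algebraMap A' (FractionRing (MvPolynomial (Fin (N + 1)) ℂ ⧸ P)) (algebraMap ℂ A' c) := rfl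
    rw [h1]
    exact isAlgebraic_algebraMap _
  | add y y' _ _ h1 h2 => exact h1.add h2
  | inv y _ h1 => exact h1.inv
  | mul y y' _ _ h1 h2 => exact h1.mul h2

end Pool.Agent.H39.SX
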