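import Pool.Agent.H39.SX.ConeBasis
import Pool.Agent.H13.SM.Cone
import Pool.Agent.H13.SM.Lift
import Pool.Agent.H13.SM.Open

/-!
# Charts of the cone of a smooth variety with linear coordinates; the finite map is open and surjective

PROOFS.  `exists_conChart`: `exists_indep (hsm x hx0 hx)` gives `f : Fin (N - (r + 1)) → _` in `P` with independent gradients at `x`; `exists_chart` for
`a = coordFun P` (`adjoin_coordFun`), `z` = the transcendence basis `basis_F` (`r + 2` elements), `c = N - (r + 1)` (`r + 1 ≤ N`: `trdeg_le`, with `l` such that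
`x l ≠ 0`, so `X l ∉ P`, `coordFun P l ≠ 0`), `w = x` (`mem_pts_coordFun`).  The last clause: `V = {y | y ∈ pts a → y = τ (y (I ·) - x (I ·)) and
(y (I ·) - x (I ·)) ∈ U}` is a neighbourhood of `x`, so by `open_at` (with `B = F`, `b` = `basis_F`, `integral_F`) the image of `pts a ∩ V` is a neighbourhood; it is
contained in the image of `U`.
`exists_preimage`: `exists_lift` with `Z = 0` (or any `Z`) and any root of the specialised polynomial; the monic polynomial `μ` may have degree `0`: use instead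
`Z = X i`-free version: take `Z = 0`; if `μ = 1` then the relation `(μ.map _).eval _ = 0` is false, so the degree is positive and `ℂ` is algebraically closed
(`IsAlgClosed.exists_root`).
-/

open MvPolynomial Topology
open Pool.Agent.H5.DG (Homog BaseFree)
open Pool.Agent.H17GT (coordFun)
open Pool.Agent.H17LG.Variety (FunField)
open Pool.Agent.H13.SM (pts conTan)

noncomputable section

namespace Pool.Agent.H39.SX

variable {N r e : ℕ} {P : Ideal (MvPolynomial (Fin (N + 1)) ℂ)} [P.IsPrime]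
  {F : Fin (r + 2) → MvPolynomial (Fin (N + 1)) ℂ}

theorem exists_conChart (hP : Homog P) (hF : BaseFree P e F)
    (hz : ∃ z : Fin (r + 1) → FunField P, IsTranscendenceBasis ℂ z)
    (hsm : ∀ y : Fin (N + 1) → ℂ, y ≠ 0 → (∀ Q ∈ P, eval y Q = 0) →
      Module.finrank ℂ (conTan P y) ≤ r + 2)
    {x : Fin (N + 1) → ℂ} (hx : ∀ Q ∈ P, eval x Q = 0) (hx0 : x ≠ 0) :
    ∃ (I : Fin (r + 2) → Fin (N + 1)) (τ : (Fin (r + 2) → ℂ) → Fin (N + 1) → ℂ),
      AnalyticAt ℂ τ 0 ∧ τ 0 = x ∧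
      (∀ᶠ u in 𝓝 0, (∀ Q ∈ P, eval (τ u) Q = 0) ∧ ∀ k, τ u (I k) = x (I k) + u k) ∧
      (∀ Q : MvPolynomial (Fin (N + 1)) ℂ, Q ∉ P → ¬ ∀ᶠ u in 𝓝 0, eval (τ u) Q = 0) ∧
      ∀ U ∈ 𝓝 (0 : Fin (r + 2) → ℂ),
        (fun u a => eval (τ u) (F a)) '' U ∈ 𝓝 (fun a => eval x (F a)) := by
  obtain ⟨l, hl⟩ := Function.ne_iff.1 hx0
  have hl' : x l ≠ 0 := hl
  have hXl : (X l : MvPolynomial (Fin (N + 1)) ℂ) ∉ P := by
    intro h
    have h1 := hx _ h
    rw [eval_X] at h1
    exact hl' h1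
  have hcf : coordFun P l ≠ 0 := Pool.Agent.H17R.coordFun_ne_zero_iff.2 hXl
  have hrN : r + 1 ≤ N := by
    obtain ⟨z, hz'⟩ := hz
    exact Pool.Agent.H13.SM.trdeg_le hcf hz'
  obtain ⟨f, hf, hli⟩ := Pool.Agent.H13.SM.exists_indep (n := r + 1) (hsm x hx0 hx)
  have hw : x ∈ pts (coordFun P) := mem_pts_coordFun.2 hx
  have hbasis := basis_F hP hF hz
  obtain ⟨I, τ, hτa, hτ0, hτ1, hτ2, hτ3⟩ := Pool.Agent.H13.SM.exists_chart
    (adjoin_coordFun (P := P)) hbasis (c := N - (r + 1)) (by rw [Fintype.card_fin]; omega)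
    (fun j => aeval_coordFun.2 (hf j)) hw hli
  refine ⟨I, τ, hτa, hτ0, ?_, ?_, ?_⟩
  · filter_upwards [hτ1] with u hu
    exact ⟨mem_pts_coordFun.1 hu.1, hu.2⟩
  · intro Q hQ
    exact hτ3 Q fun h => hQ (aeval_coordFun.1 h)
  · intro U hU
    have hV : {y : Fin (N + 1) → ℂ | (y ∈ pts (coordFun P) → y = τ (fun k => y (I k) - x (I k))) ∧
        (fun k => y (I k) - x (I k)) ∈ U} ∈ 𝓝 x := by
      have hc : Continuous fun y : Fin (N + 1) → ℂ => fun k => y (I k) - x (I k) :=
        continuous_pi fun k => (continuous_apply (I k)).sub continuous_const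
      have hc0 : (fun k => x (I k) - x (I k)) = (0 : Fin (r + 2) → ℂ) := by
        funext k
        rw [sub_self, Pi.zero_apply]
      have h1 : ∀ᶠ y in 𝓝 x, (fun k => y (I k) - x (I k)) ∈ U := by
        have h2 := hc.tendsto x
        rw [hc0] at h2
        exact h2.eventually hU
      filter_upwards [hτ2, h1] with y hy1 hy2
      exact ⟨hy1, hy2⟩
    have hop := Pool.Agent.H13.SM.open_at hbasis.1 (B := F) (fun j => rfl)
      (fun i => integral_F hP hF i) hw hV
    refine Filter.mem_of_superset hop ?_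
    rintro - ⟨y, ⟨hy1, hy2, hy3⟩, rfl⟩
    refine ⟨fun k => y (I k) - x (I k), hy3, ?_⟩
    funext a
    dsimp only
    rw [← hy2 hy1]

theorem exists_preimage (hP : Homog P) (hF : BaseFree P e F)
    (hz : ∃ z : Fin (r + 1) → FunField P, IsTranscendenceBasis ℂ z) (y : Fin (r + 2) → ℂ) :
    ∃ x : Fin (N + 1) → ℂ, (∀ Q ∈ P, eval x Q = 0) ∧ ∀ a, eval x (F a) = y a := by
  obtain ⟨μ, hμm, hμr, hμl⟩ := Pool.Agent.H13.SM.exists_lift (basis_F hP hF hz).1 (B := F)
    (fun j => rfl) (fun i => integral_F hP hF i) 0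
  have hdeg : μ.natDegree ≠ 0 := by
    intro h0
    have h1 : μ = 1 := Polynomial.eq_one_of_monic_natDegree_zero hμm h0
    rw [h1, Polynomial.map_one, Polynomial.eval_one] at hμr
    exact one_ne_zero hμr
  have hdeg' : (μ.map (eval y)).degree ≠ 0 := by
    intro h0
    apply hdeg
    rw [← hμm.natDegree_map (eval y)]
    exact Polynomial.natDegree_eq_of_degree_eq_some h0
  obtain ⟨T, hT⟩ := IsAlgClosed.exists_root (μ.map (eval y)) hdeg'
  obtain ⟨x, hx1, hx2, -⟩ := hμl y T hT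
  exact ⟨x, mem_pts_coordFun.1 hx1, hx2⟩

end Pool.Agent.H39.SX
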