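import Mathlib

/-!
# Comparison of volumes

PROOF.  Suppose `2 n < k`.  Let `U` be a closed ball around `0` of finite volume `V` on which `Φ` is analytic (so differentiable) and `hJ` holds, and let
`L` be such that `‖eval y (G j)‖ ≤ L ‖y - Φ 0‖` for all `j` and all `y` in a neighbourhood of `Φ 0` (the polynomials are differentiable and
vanish at `Φ 0`).  For `ε > 0` small the ball `B` of radius `ε` around `Φ 0` is contained in `Φ '' U` and in this neighbourhood.  With
`S = U ∩ Φ ⁻¹' B` one has `B ⊆ Φ '' S`, so by `MeasureTheory.addHaar_image_le_lintegral_abs_det_fderiv` (over `ℝ`, `E = Fin n → ℂ`, the derivative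
`(fderiv ℂ Φ x).restrictScalars ℝ`) the volume of `B`, which is `c ε ^ (2 n)`, `c > 0` (`MeasureTheory.Measure.addHaar_ball`,
`finrank ℝ (Fin n → ℂ) = 2 n`), is at most `∫⁻ x in S, |det|`.  The real determinant is `‖det‖ ^ 2`
(`LinearMap.det_restrictScalars`, `Algebra.norm_complex_apply`, `Complex.normSq_eq_norm_sq`), so on `S` it is at most
`C ∏ j, ‖eval (Φ x) (G j)‖ ≤ C (L ε) ^ k`.  So `c ε ^ (2 n) ≤ V C (L ε) ^ k` for all small `ε > 0`: a contradiction for `ε → 0` since `2 n + 1 ≤ k`.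
-/

open Topology Filter MvPolynomial MeasureTheory

noncomputable section

namespace Pool.Agent.H39.SX

private theorem vol_finrank (n : ℕ) : Module.finrank ℝ (Fin n → ℂ) = 2 * n := by
  rw [Module.finrank_pi_fintype]
  simp [Complex.finrank_real_complex, mul_comm]

private theorem vol_det {n : ℕ} (A : (Fin n → ℂ) →L[ℂ] (Fin n → ℂ)) :
    |(A.restrictScalars ℝ).det| = ‖A.det‖ ^ 2 := by
  have h1 : (A.restrictScalars ℝ).det = Algebra.norm ℝ A.det := by
    rw [ContinuousLinearMap.det, ContinuousLinearMap.det, ContinuousLinearMap.coe_restrictScalars]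
    exact LinearMap.det_restrictScalars
  rw [h1, Algebra.norm_complex_apply, Complex.normSq_eq_norm_sq, abs_of_nonneg (sq_nonneg _)]

/-- a polynomial which vanishes at a point is locally at most a multiple of the distance -/
private theorem vol_lin {n : ℕ} (Q : MvPolynomial (Fin n) ℂ) {y : Fin n → ℂ}
    (hQ : eval y Q = 0) : ∃ L : ℝ, 0 ≤ L ∧ ∀ᶠ z in 𝓝 y, ‖eval z Q‖ ≤ L * ‖z - y‖ := by
  have h1 : DifferentiableAt ℂ (fun z : Fin n → ℂ => eval z Q) y :=
    (AnalyticOnNhd.eval_mvPolynomial Q y (Set.mem_univ _)).differentiableAt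
  obtain ⟨L, hL⟩ := h1.isBigO_sub.bound
  refine ⟨|L|, abs_nonneg L, hL.mono fun z hz => ?_⟩
  rw [hQ, sub_zero] at hz
  exact hz.trans (mul_le_mul_of_nonneg_right (le_abs_self L) (norm_nonneg _))

private theorem vol_prod {n k : ℕ} (G : Fin k → MvPolynomial (Fin n) ℂ) {y : Fin n → ℂ}
    (hG : ∀ j, eval y (G j) = 0) :
    ∃ L : ℝ, 0 ≤ L ∧ ∀ᶠ z in 𝓝 y, ∏ j, ‖eval z (G j)‖ ≤ (L * ‖z - y‖) ^ k := by
  choose L hL0 hL using fun j => vol_lin (G j) (hG j)
  refine ⟨∑ j, L j, Finset.sum_nonneg fun j _ => hL0 j, ?_⟩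
  filter_upwards [eventually_all.2 hL] with z hz
  calc ∏ j, ‖eval z (G j)‖ ≤ ∏ _j : Fin k, ((∑ j, L j) * ‖z - y‖) := by
        refine Finset.prod_le_prod (fun j _ => norm_nonneg _) fun j _ => (hz j).trans ?_
        exact mul_le_mul_of_nonneg_right
          (Finset.single_le_sum (fun i _ => hL0 i) (Finset.mem_univ j)) (norm_nonneg _)
    _ = ((∑ j, L j) * ‖z - y‖) ^ k := by
        rw [Finset.prod_const, Finset.card_univ, Fintype.card_fin]

theorem card_le_of_vol {n k : ℕ} {Φ : (Fin n → ℂ) → Fin n → ℂ} (hΦ : AnalyticAt ℂ Φ 0)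
    (hopen : ∀ U ∈ 𝓝 (0 : Fin n → ℂ), Φ '' U ∈ 𝓝 (Φ 0)) (G : Fin k → MvPolynomial (Fin n) ℂ)
    (hG : ∀ j, eval (Φ 0) (G j) = 0) {C : ℝ}
    (hJ : ∀ᶠ u in 𝓝 (0 : Fin n → ℂ),
      ‖(fderiv ℂ Φ u).det‖ ^ 2 ≤ C * ∏ j, ‖eval (Φ u) (G j)‖) : k ≤ 2 * n := by
  by_contra hk
  push Not at hk
  -- a ball on which everything holds
  obtain ⟨ρ, hρ, hball⟩ := Metric.eventually_nhds_iff_ball.1 (hΦ.eventually_analyticAt.and hJ)
  set U : Set (Fin n → ℂ) := Metric.ball 0 ρ with hU
  have hUo : IsOpen U := Metric.isOpen_ball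
  have hVfin : volume U < ⊤ := measure_ball_lt_top
  obtain ⟨L, hL0, hL⟩ := vol_prod G hG
  obtain ⟨δ₁, hδ₁, hL'⟩ := Metric.eventually_nhds_iff_ball.1 hL
  obtain ⟨δ₂, hδ₂, hsub⟩ := Metric.mem_nhds_iff.1 (hopen U (Metric.ball_mem_nhds 0 hρ))
  have hcont : ContinuousOn Φ U := fun x hx => (hball x hx).1.continuousAt.continuousWithinAt
  set V : ℝ := (volume U).toReal with hV
  set c : ℝ := (volume (Metric.ball (0 : Fin n → ℂ) 1)).toReal with hc
  have hc0 : 0 < c := ENNReal.toReal_pos (Metric.measure_ball_pos _ _ one_pos).ne'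
    measure_ball_lt_top.ne
  have hV0 : 0 ≤ V := ENNReal.toReal_nonneg
  -- the key inequality
  have key : ∀ ε : ℝ, 0 < ε → ε < δ₁ → ε < δ₂ →
      ε ^ (2 * n) * c ≤ |C| * (L * ε) ^ k * V := by
    intro ε hε h1 h2
    set B : Set (Fin n → ℂ) := Metric.ball (Φ 0) ε with hB
    set S : Set (Fin n → ℂ) := U ∩ Φ ⁻¹' B with hS
    have hSo : IsOpen S := hcont.isOpen_inter_preimage hUo Metric.isOpen_ball
    have hBS : B ⊆ Φ '' S := by
      intro y hy
      obtain ⟨x, hx, rfl⟩ := hsub (Metric.ball_subset_ball h2.le hy)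
      exact ⟨x, ⟨hx, hy⟩, rfl⟩
    have h3 : volume B ≤ ∫⁻ x in S, ENNReal.ofReal
        |((fderiv ℂ Φ x).restrictScalars ℝ).det| :=
      (measure_mono hBS).trans (addHaar_image_le_lintegral_abs_det_fderiv volume
        hSo.measurableSet fun x hx =>
          ((hball x hx.1).1.differentiableAt.hasFDerivAt.restrictScalars ℝ).hasFDerivWithinAt)
    have h4 : ∀ x ∈ S, ENNReal.ofReal |((fderiv ℂ Φ x).restrictScalars ℝ).det| ≤
        ENNReal.ofReal (|C| * (L * ε) ^ k) := by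
      intro x hx
      apply ENNReal.ofReal_le_ofReal
      rw [vol_det]
      refine ((hball x hx.1).2).trans ?_
      have h5 : Φ x ∈ Metric.ball (Φ 0) ε := hx.2
      have h6 := hL' (Φ x) (Metric.ball_subset_ball h1.le h5)
      have h7 : ‖Φ x - Φ 0‖ ≤ ε := by
        rw [Metric.mem_ball, dist_eq_norm] at h5
        exact h5.le
      have h8 : ∏ j, ‖eval (Φ x) (G j)‖ ≤ (L * ε) ^ k :=
        h6.trans (pow_le_pow_left₀ (mul_nonneg hL0 (norm_nonneg _))
          (mul_le_mul_of_nonneg_left h7 hL0) k)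
      have h9 : 0 ≤ ∏ j, ‖eval (Φ x) (G j)‖ := Finset.prod_nonneg fun j _ => norm_nonneg _
      exact (mul_le_mul_of_nonneg_right (le_abs_self C) h9).trans
        (mul_le_mul_of_nonneg_left h8 (abs_nonneg C))
    have h5 : volume B ≤ ENNReal.ofReal (|C| * (L * ε) ^ k) * volume U := by
      refine h3.trans ((setLIntegral_mono' hSo.measurableSet h4).trans ?_)
      rw [setLIntegral_const]
      gcongr
      exact Set.inter_subset_left
    rw [hB, Measure.addHaar_ball_of_pos volume _ hε, vol_finrank] at h5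
    have h6 : ENNReal.ofReal (|C| * (L * ε) ^ k) * volume U ≠ ⊤ :=
      ENNReal.mul_ne_top ENNReal.ofReal_ne_top hVfin.ne
    have h7 := ENNReal.toReal_mono h6 h5
    rw [ENNReal.toReal_mul, ENNReal.toReal_mul, ENNReal.toReal_ofReal (by positivity),
      ENNReal.toReal_ofReal (by positivity)] at h7
    exact h7
  -- let `ε` tend to `0`
  have key2 : ∀ ε : ℝ, 0 < ε → ε < δ₁ → ε < δ₂ → ε < 1 → c ≤ |C| * L ^ k * V * ε := by
    intro ε hε h1 h2 h3
    have h4 := key ε hε h1 h2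
    have h5 : ε ^ k ≤ ε ^ (2 * n + 1) := pow_le_pow_of_le_one hε.le h3.le hk
    have h6 : 0 ≤ |C| * L ^ k * V := by positivity
    have h7 : |C| * (L * ε) ^ k * V ≤ (|C| * L ^ k * V * ε) * ε ^ (2 * n) := by
      have h8 := mul_le_mul_of_nonneg_left h5 h6
      calc |C| * (L * ε) ^ k * V = |C| * L ^ k * V * ε ^ k := by rw [mul_pow]; ring
        _ ≤ |C| * L ^ k * V * ε ^ (2 * n + 1) := h8
        _ = (|C| * L ^ k * V * ε) * ε ^ (2 * n) := by ring
    have h8 : c * ε ^ (2 * n) ≤ (|C| * L ^ k * V * ε) * ε ^ (2 * n) := by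
      rw [mul_comm c]
      exact h4.trans h7
    exact le_of_mul_le_mul_right h8 (pow_pos hε _)
  have h9 : 0 ≤ |C| * L ^ k * V := by positivity
  set D : ℝ := |C| * L ^ k * V with hD
  have hε0 : 0 < min (min (δ₁ / 2) (δ₂ / 2)) (min (1 / 2) (c / (2 * (D + 1)))) := by
    have : 0 < c / (2 * (D + 1)) := by positivity
    exact lt_min (lt_min (by positivity) (by positivity)) (lt_min (by norm_num) this)
  set ε : ℝ := min (min (δ₁ / 2) (δ₂ / 2)) (min (1 / 2) (c / (2 * (D + 1)))) with hε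
  have e1 : ε ≤ δ₁ / 2 := (min_le_left _ _).trans (min_le_left _ _)
  have e2 : ε ≤ δ₂ / 2 := (min_le_left _ _).trans (min_le_right _ _)
  have e3 : ε ≤ 1 / 2 := (min_le_right _ _).trans (min_le_left _ _)
  have e4 : ε ≤ c / (2 * (D + 1)) := (min_le_right _ _).trans (min_le_right _ _)
  have h10 := key2 ε hε0 (by linarith) (by linarith) (by linarith)
  have h11 : D * ε ≤ c / 2 := by
    have h12 : (D + 1) * ε ≤ (D + 1) * (c / (2 * (D + 1))) :=
      mul_le_mul_of_nonneg_left e4 (by linarith)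
    have h13 : (D + 1) * (c / (2 * (D + 1))) = c / 2 := by
      field_simp
    rw [h13] at h12
    nlinarith
  linarith

end Pool.Agent.H39.SX
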