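import Pool.Agent.H39.SX.JacBound
import Pool.Agent.H39.SX.Vol
import Pool.Agent.H39.SX.ConeChart

/-!
# At most `2 (r + 2)` ramified hypersurfaces through a point

`X` is smooth of dimension `r + 1`, `F` is a finite morphism `X → ℙ^(r + 1)`.

PROOF.  `card_le_of_smooth`: the chart of `exists_conChart` at `x`, `jac_bound`, `card_le_of_vol` with `Φ u a = eval (τ u) (F a)` (analytic at `0`:
`AnalyticOnNhd.eval_mvPolynomial`), `hopen` = the last clause of `exists_conChart`; `hnz`: `aeval F (∏ j, G j) ∉ P` by `aeval_F_ne_zero` and the fourth clause.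
`smooth_count`: `exists_preimage y` gives `x` with `F (x) = y`, `x ≠ 0` since `y ≠ 0` (`F a` is a form of degree `e ≥ 1`: `eval 0 (F a) = 0`).  If the set had more than
`2 (r + 2)` elements, choose an injection `ι : Fin (2 * (r + 2) + 1) → Fin m` into it and apply `card_le_of_smooth` to `G ∘ ι`.
-/

open Topology Filter MvPolynomial
open Pool.Agent.H5.DG (Homog BaseFree RamM)
open Pool.Agent.H17LG.Variety (FunField)
open Pool.Agent.H13.SM (conTan)

noncomputable section

namespace Pool.Agent.H39.SX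

variable {N r e k m : ℕ} {P : Ideal (MvPolynomial (Fin (N + 1)) ℂ)} [P.IsPrime]
  {F : Fin (r + 2) → MvPolynomial (Fin (N + 1)) ℂ}

theorem card_le_of_smooth (hP : Homog P) (hF : BaseFree P e F)
    (hz : ∃ z : Fin (r + 1) → FunField P, IsTranscendenceBasis ℂ z)
    (hsm : ∀ y : Fin (N + 1) → ℂ, y ≠ 0 → (∀ Q ∈ P, eval y Q = 0) →
      Module.finrank ℂ (conTan P y) ≤ r + 2)
    {G : Fin k → MvPolynomial (Fin (r + 2)) ℂ} (hG : ∀ j, Irreducible (G j))
    (hGG : ∀ i j, i ≠ j → ¬ G i ∣ G j) (hram : ∀ j, RamM 2 P (aeval F (G j)))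
    {x : Fin (N + 1) → ℂ} (hx : ∀ Q ∈ P, eval x Q = 0) (hx0 : x ≠ 0)
    (hGx : ∀ j, eval (fun a => eval x (F a)) (G j) = 0) : k ≤ 2 * (r + 2) := by
  obtain ⟨I, τ, hτ, hτ0, hchart, hnz, hopen⟩ := exists_conChart hP hF hz hsm hx hx0
  have hprod : aeval F (∏ j, G j) ∉ P :=
    aeval_F_ne_zero hP hF hz (Finset.prod_ne_zero_iff.2 fun j _ => (hG j).ne_zero)
  obtain ⟨C, -, hC⟩ := jac_bound hP hF hG hGG hram hx0 hτ hτ0 hchart (hnz _ hprod)
  have hΦ : AnalyticAt ℂ (fun (u : Fin (r + 2) → ℂ) (a : Fin (r + 2)) => eval (τ u) (F a)) 0 := by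
    refine AnalyticAt.pi fun a => ?_
    have h1 : AnalyticAt ℂ (fun y : Fin (N + 1) → ℂ => eval y (F a)) (τ 0) :=
      AnalyticOnNhd.eval_mvPolynomial (F a) _ (Set.mem_univ _)
    exact h1.comp hτ
  refine card_le_of_vol hΦ (fun U hU => ?_) G (fun j => ?_) hC
  · simp only [hτ0]
    exact hopen U hU
  · simp only [hτ0]
    exact hGx j

/-- **At most `2 (r + 2)` of the hypersurfaces pass through a point of `ℙ^(r + 1)`.** -/
theorem smooth_count (hP : Homog P) (hF : BaseFree P e F)
    (hz : ∃ z : Fin (r + 1) → FunField P, IsTranscendenceBasis ℂ z)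
    (hsm : ∀ y : Fin (N + 1) → ℂ, y ≠ 0 → (∀ Q ∈ P, eval y Q = 0) →
      Module.finrank ℂ (conTan P y) ≤ r + 2)
    {G : Fin m → MvPolynomial (Fin (r + 2)) ℂ} (hG : ∀ j, Irreducible (G j))
    (hGG : ∀ i j, i ≠ j → ¬ G i ∣ G j) (hram : ∀ j, RamM 2 P (aeval F (G j)))
    {y : Fin (r + 2) → ℂ} (hy : y ≠ 0) : {j | eval y (G j) = 0}.ncard ≤ 2 * (r + 2) := by
  classical
  obtain ⟨x, hx, hxy⟩ := exists_preimage hP hF hz y
  have hx0 : x ≠ 0 := by
    rintro rfl
    apply hy
    funext a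
    rw [← hxy a, Pi.zero_apply]
    have h1 : (F a).IsHomogeneous e := hF.hom a
    have h3 : constantCoeff (F a) = 0 := by
      rw [constantCoeff_eq]
      by_contra hcon
      have h4 := h1 hcon
      have h5 := hF.pos
      simp at h4
      omega
    rw [← h3]
    exact congrFun (congrArg DFunLike.coe eval_zero) (F a)
  by_contra hcon
  push Not at hcon
  have hcard : 2 * (r + 2) + 1 ≤ (Finset.univ.filter fun j => eval y (G j) = 0).card := by
    have h1 : {j | eval y (G j) = 0}.ncard = (Finset.univ.filter fun j => eval y (G j) = 0).card := by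
      rw [← Set.ncard_coe_finset]
      congr 1
      ext j
      simp
    omega
  obtain ⟨T, hT, hTc⟩ := Finset.exists_subset_card_eq hcard
  have h2 := card_le_of_smooth (k := 2 * (r + 2) + 1) hP hF hz hsm
    (G := fun i => G (T.orderEmbOfFin hTc i)) (fun i => hG _)
    (fun i j hij => hGG _ _ fun h => hij ((T.orderEmbOfFin hTc).injective h)) (fun i => hram _) hx
    hx0 (fun i => by
      have h3 := hT (Finset.orderEmbOfFin_mem T hTc i)
      rw [Finset.mem_filter] at h3
      have h4 : (fun a => eval x (F a)) = y := funext hxy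
      rw [h4]
      exact h3.2)
  omega

end Pool.Agent.H39.SX
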