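import Mathlib

/-!
# Dense sets of lines

`linMod v b a` are `n` linear forms on `ℂ ^ (n + 1)` which vanish at `v` (if `v b ≠ 0`).

PROOF.  `linMod_add`: direct computation.  `dense_ne_zero`: the complement is the zero set of a polynomial which is not zero; if it contained a
neighbourhood of a point then the polynomial would be zero (`Pool.Agent.H13.SM.eq_zero_of_eventually`, or `MvPolynomial.funext_set`, or analytic
identity theorem and `MvPolynomial.funext`).  `dense_lines`: the polynomial `rename b.succAbove R'`, or rather `Q = aeval (fun a => X (b.succAbove a) -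
C (v (b.succAbove a) / v b) * X b) R` satisfies `eval u Q = eval (linMod v b u) R`; it is not zero since `linMod v b` is surjective (take `u b = 0`) and
`R` takes a value `≠ 0` (`MvPolynomial.funext`).  With `R (x + ·)`: replace `R` by its translate.
-/

open Topology Filter MvPolynomial

noncomputable section

namespace Pool.Agent.H39.SX

/-- Linear forms on `ℂ ^ (n + 1)` which vanish at `v`. -/
def linMod {n : ℕ} (v : Fin (n + 1) → ℂ) (b : Fin (n + 1)) (u : Fin (n + 1) → ℂ) (a : Fin n) : ℂ :=
  u (b.succAbove a) - v (b.succAbove a) / v b * u b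

theorem linMod_add {n : ℕ} {v : Fin (n + 1) → ℂ} {b : Fin (n + 1)} (hb : v b ≠ 0)
    (u : Fin (n + 1) → ℂ) (t : ℂ) : linMod v b (u + t • v) = linMod v b u := by
  funext a
  unfold linMod
  rw [Pi.add_apply, Pi.add_apply, Pi.smul_apply, Pi.smul_apply, smul_eq_mul, smul_eq_mul]
  have h1 : v (b.succAbove a) / v b * (t * v b) = t * v (b.succAbove a) := by
    field_simp
  rw [mul_add, h1]
  ring

theorem dense_ne_zero {n : ℕ} {R : MvPolynomial (Fin n) ℂ} (hR : R ≠ 0) :
    Dense {u : Fin n → ℂ | eval u R ≠ 0} := by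
  rw [Metric.dense_iff]
  intro x r hr
  by_contra hcon
  rw [Set.not_nonempty_iff_eq_empty] at hcon
  apply hR
  refine MvPolynomial.funext_set (fun i => Metric.ball (x i) r) (fun i => ?_) fun y hy => ?_
  · have h1 := infinite_of_mem_nhds (x i) (Metric.ball_mem_nhds (x i) hr)
    exact h1
  · rw [map_zero]
    by_contra h1
    have h2 : y ∈ Metric.ball x r ∩ {u : Fin n → ℂ | eval u R ≠ 0} := by
      refine ⟨?_, h1⟩
      rw [ball_pi x hr]
      exact hy
    rw [hcon] at h2
    exact h2

theorem dense_lines {n : ℕ} {v : Fin (n + 1) → ℂ} {b : Fin (n + 1)} (hb : v b ≠ 0)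
    {R : MvPolynomial (Fin n) ℂ} (hR : R ≠ 0) (x : Fin n → ℂ) :
    Dense {u : Fin (n + 1) → ℂ | eval (fun a => x a + linMod v b u a) R ≠ 0} := by
  obtain ⟨Q, hQ⟩ : ∃ Q : MvPolynomial (Fin (n + 1)) ℂ, Q = aeval (fun a : Fin n =>
      (C (x a) + (X (b.succAbove a) - C (v (b.succAbove a) / v b) * X b) :
        MvPolynomial (Fin (n + 1)) ℂ)) R := ⟨_, rfl⟩
  have hQe : ∀ u : Fin (n + 1) → ℂ, eval u Q = eval (fun a => x a + linMod v b u a) R := by
    intro u
    rw [hQ, aeval_def, eval₂_comp_left (eval u)]
    have h1 : (eval u).comp (algebraMap ℂ (MvPolynomial (Fin (n + 1)) ℂ)) = RingHom.id ℂ :=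
      RingHom.ext fun t => eval_C t
    rw [h1]
    change _ = eval₂ (RingHom.id ℂ) (fun a => x a + linMod v b u a) R
    congr 1
    funext a
    simp only [Function.comp_apply, map_add, map_sub, map_mul, eval_C, eval_X, linMod]
  have hQ0 : Q ≠ 0 := by
    intro h0
    apply hR
    refine MvPolynomial.funext fun y => ?_
    rw [map_zero]
    have h1 := hQe (b.insertNth 0 fun a => y a - x a)
    rw [h0, map_zero] at h1
    rw [h1]
    congr 1
    have h2 : (fun a => x a + linMod v b (b.insertNth 0 fun a => y a - x a) a) = y := by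
      funext a
      unfold linMod
      rw [Fin.insertNth_apply_succAbove, Fin.insertNth_apply_same]
      ring
    rw [h2]
  have h1 := dense_ne_zero hQ0
  have h2 : {u : Fin (n + 1) → ℂ | eval u Q ≠ 0} =
      {u : Fin (n + 1) → ℂ | eval (fun a => x a + linMod v b u a) R ≠ 0} := by
    ext u
    rw [Set.mem_setOf_eq, Set.mem_setOf_eq, hQe]
  rwa [h2] at h1

end Pool.Agent.H39.SX
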