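import Pool.Agent.H39.SX.Newton

/-!
# The gradient of a function whose zeros are critical points

PROOF.  Choose `R > 0` such that on the ball of radius `2 R` around `u₀` the function `h` is analytic, `h0` holds, and
`‖fderiv ℂ h u‖ ≤ A`, `‖fderiv ℂ (fderiv ℂ h) u‖ ≤ M` (continuity at `u₀`; `AnalyticAt.fderiv`, `AnalyticAt.eventually_analyticAt`).  For `‖u - u₀‖ < R`
and `‖v‖ ≤ 1` apply `sq_norm_deriv_le` to `g t = h (u + t • v)` on the closed ball of radius `R / 2` around `0`: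
`deriv g t = fderiv ℂ h (u + t • v) v`, `deriv (deriv g) t = fderiv ℂ (fderiv ℂ h) (u + t • v) v v`.  So
`‖fderiv ℂ h u v‖ ^ 2 ≤ C ‖h u‖` with `C = 8 M + 8 A / R`, and `‖fderiv ℂ h u‖ ≤ √(C ‖h u‖)` (`ContinuousLinearMap.opNorm_le_bound`, scaling `v`).
-/

open Topology Filter

noncomputable section

namespace Pool.Agent.H39.SX

/-- one direction -/
private theorem gr_dir {n : ℕ} {h : (Fin n → ℂ) → ℂ} {u₀ : Fin n → ℂ} {R A M : ℝ} (hR : 0 < R) (hM : 0 ≤ M)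
    (han : ∀ w, dist w u₀ < 2 * R → AnalyticAt ℂ h w)
    (hz : ∀ w, dist w u₀ < 2 * R → h w = 0 → fderiv ℂ h w = 0)
    (hA : ∀ w, dist w u₀ < 2 * R → ‖fderiv ℂ h w‖ ≤ A)
    (hB : ∀ w, dist w u₀ < 2 * R → ‖fderiv ℂ (fderiv ℂ h) w‖ ≤ M)
    (u v : Fin n → ℂ) (hu : dist u u₀ < R) (hv : ‖v‖ ≤ 1) :
    ‖fderiv ℂ h u v‖ ^ 2 ≤ (8 * M + 8 * A / R) * ‖h u‖ := by
  set φ : ℂ → (Fin n → ℂ) := fun t => u + t • v with hφ
  have hφc : Continuous φ := by
    rw [hφ]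
    exact continuous_const.add (continuous_id.smul continuous_const)
  have hφd : ∀ t : ℂ, HasDerivAt φ v t := by
    intro t
    have h1 : HasDerivAt (fun t : ℂ => t • v) ((1 : ℂ) • v) t := (hasDerivAt_id t).smul_const v
    rw [one_smul] at h1
    exact h1.const_add u
  have hφa : ∀ t : ℂ, AnalyticAt ℂ φ t := by
    intro t
    exact analyticAt_const.add (analyticAt_id.smul analyticAt_const)
  have hball : ∀ t ∈ Metric.closedBall (0 : ℂ) (R / 2), dist (φ t) u₀ < 2 * R := by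
    intro t ht
    rw [Metric.mem_closedBall, dist_zero_right] at ht
    have h1 : dist (φ t) u = ‖t • v‖ := by
      rw [hφ, dist_eq_norm]
      simp
    have h2 : ‖t • v‖ ≤ R / 2 := by
      rw [norm_smul]
      calc ‖t‖ * ‖v‖ ≤ ‖t‖ * 1 := mul_le_mul_of_nonneg_left hv (norm_nonneg _)
        _ ≤ R / 2 := by rw [mul_one]; exact ht
    calc dist (φ t) u₀ ≤ dist (φ t) u + dist u u₀ := dist_triangle _ _ _
      _ < 2 * R := by rw [h1]; linarith
  have hd1 : ∀ t : ℂ, dist (φ t) u₀ < 2 * R → HasDerivAt (fun s => h (φ s)) (fderiv ℂ h (φ t) v) t := by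
    intro t ht
    exact (han _ ht).differentiableAt.hasFDerivAt.comp_hasDerivAt t (hφd t)
  have hopen : ∀ t : ℂ, dist (φ t) u₀ < 2 * R → ∀ᶠ s in 𝓝 t, dist (φ s) u₀ < 2 * R := by
    intro t ht
    have : Continuous fun s => dist (φ s) u₀ := hφc.dist continuous_const
    exact this.continuousAt.eventually (Iio_mem_nhds ht)
  have hd2 : ∀ t : ℂ, dist (φ t) u₀ < 2 * R →
      deriv (deriv (fun s => h (φ s))) t = fderiv ℂ (fderiv ℂ h) (φ t) v v := by
    intro t ht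
    have h1 : deriv (fun s => h (φ s)) =ᶠ[𝓝 t] fun s => fderiv ℂ h (φ s) v := by
      filter_upwards [hopen t ht] with s hs
      exact (hd1 s hs).deriv
    rw [h1.deriv_eq]
    have h2 : HasDerivAt (fun s => fderiv ℂ h (φ s)) (fderiv ℂ (fderiv ℂ h) (φ t) v) t :=
      (han _ ht).fderiv.differentiableAt.hasFDerivAt.comp_hasDerivAt t (hφd t)
    have h3 := h2.clm_apply (hasDerivAt_const t v)
    rw [h3.deriv]
    simp
  have hkey := sq_norm_deriv_le (h := fun s => h (φ s)) (z₀ := 0) (R := R / 2) (M := M) (by positivity) hM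
    (fun t ht => AnalyticAt.comp (han _ (hball t ht)) (hφa t))
    (fun t ht => by
      rw [hd2 t (hball t ht)]
      calc ‖fderiv ℂ (fderiv ℂ h) (φ t) v v‖ ≤ ‖fderiv ℂ (fderiv ℂ h) (φ t) v‖ * ‖v‖ :=
            ContinuousLinearMap.le_opNorm _ _
        _ ≤ (‖fderiv ℂ (fderiv ℂ h) (φ t)‖ * ‖v‖) * ‖v‖ :=
            mul_le_mul_of_nonneg_right (ContinuousLinearMap.le_opNorm _ _) (norm_nonneg _)
        _ ≤ (M * 1) * 1 := by
            refine mul_le_mul (mul_le_mul (hB _ (hball t ht)) hv (norm_nonneg _) hM) hv (norm_nonneg _) ?_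
            rw [mul_one]
            exact hM
        _ = M := by ring)
    (fun t ht h1 => by
      rw [(hd1 t (hball t ht)).deriv, hz _ (hball t ht) h1]
      rfl)
  have h0m : (0 : ℂ) ∈ Metric.closedBall (0 : ℂ) (R / 2) := by
    rw [Metric.mem_closedBall, dist_self]
    positivity
  have hφ0 : φ 0 = u := by
    rw [hφ]
    simp
  have hder : deriv (fun s => h (φ s)) 0 = fderiv ℂ h u v := by
    rw [(hd1 0 (hball 0 h0m)).deriv, hφ0]
  rw [hder] at hkey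
  rw [hφ0] at hkey
  refine hkey.trans ?_
  refine mul_le_mul_of_nonneg_right ?_ (norm_nonneg _)
  have h4 : ‖fderiv ℂ h u v‖ ≤ A := by
    have hu2 : dist u u₀ < 2 * R := by linarith
    have hA0 : 0 ≤ A := (norm_nonneg _).trans (hA u hu2)
    calc ‖fderiv ℂ h u v‖ ≤ ‖fderiv ℂ h u‖ * ‖v‖ := ContinuousLinearMap.le_opNorm _ _
      _ ≤ A * 1 := mul_le_mul (hA u hu2) hv (norm_nonneg _) hA0
      _ = A := mul_one A
  have h5 : 4 * ‖fderiv ℂ h u v‖ / (R / 2) ≤ 8 * A / R := by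
    rw [div_le_div_iff₀ (by positivity) hR]
    nlinarith
  linarith

theorem norm_fderiv_sq_le {n : ℕ} {h : (Fin n → ℂ) → ℂ} {u₀ : Fin n → ℂ} (hh : AnalyticAt ℂ h u₀)
    (h0 : ∀ᶠ u in 𝓝 u₀, h u = 0 → fderiv ℂ h u = 0) :
    ∃ C : ℝ, 0 ≤ C ∧ ∀ᶠ u in 𝓝 u₀, ‖fderiv ℂ h u‖ ^ 2 ≤ C * ‖h u‖ := by
  set A := ‖fderiv ℂ h u₀‖ + 1 with hAdef
  set M := ‖fderiv ℂ (fderiv ℂ h) u₀‖ + 1 with hMdef
  have hA0 : 0 ≤ A := by positivity
  have hM0 : 0 ≤ M := by positivity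
  have e1 : ∀ᶠ w in 𝓝 u₀, ‖fderiv ℂ h w‖ ≤ A := by
    have h1 : ContinuousAt (fun w => ‖fderiv ℂ h w‖) u₀ := hh.fderiv.continuousAt.norm
    have h2 := h1.eventually (Iio_mem_nhds (lt_add_one (‖fderiv ℂ h u₀‖)))
    filter_upwards [h2] with w hw using le_of_lt hw
  have e2 : ∀ᶠ w in 𝓝 u₀, ‖fderiv ℂ (fderiv ℂ h) w‖ ≤ M := by
    have h1 : ContinuousAt (fun w => ‖fderiv ℂ (fderiv ℂ h) w‖) u₀ := hh.fderiv.fderiv.continuousAt.norm
    have h2 := h1.eventually (Iio_mem_nhds (lt_add_one (‖fderiv ℂ (fderiv ℂ h) u₀‖)))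
    filter_upwards [h2] with w hw using le_of_lt hw
  have e3 := hh.eventually_analyticAt
  obtain ⟨ε, hε, hall⟩ := Metric.eventually_nhds_iff.1 (((e1.and e2).and e3).and h0)
  set R := ε / 2 with hRdef
  have hR : 0 < R := by positivity
  have h2R : 2 * R = ε := by rw [hRdef]; ring
  refine ⟨8 * M + 8 * A / R, by positivity, ?_⟩
  refine Metric.eventually_nhds_iff.2 ⟨R, hR, fun {u} hu => ?_⟩
  have hdir := fun v hv => gr_dir (h := h) (u₀ := u₀) hR hM0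
    (fun w hw => (hall (by rw [← h2R]; exact hw)).1.2)
    (fun w hw => (hall (by rw [← h2R]; exact hw)).2)
    (fun w hw => (hall (by rw [← h2R]; exact hw)).1.1.1)
    (fun w hw => (hall (by rw [← h2R]; exact hw)).1.1.2) u v hu hv
  set S := (8 * M + 8 * A / R) * ‖h u‖ with hS
  have hS0 : 0 ≤ S := by positivity
  have hle : ‖fderiv ℂ h u‖ ≤ Real.sqrt S := by
    refine ContinuousLinearMap.opNorm_le_bound _ (Real.sqrt_nonneg _) fun v => ?_
    rcases eq_or_ne v 0 with hv | hv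
    · subst hv
      simp
    · have hv0 : 0 < ‖v‖ := norm_pos_iff.2 hv
      have h1 : ‖((‖v‖⁻¹ : ℝ) : ℂ) • v‖ = 1 := by
        rw [norm_smul, Complex.norm_real, norm_inv, norm_norm]
        exact inv_mul_cancel₀ hv0.ne'
      have h2 := hdir _ h1.le
      rw [map_smul, norm_smul, Complex.norm_real, norm_inv, norm_norm] at h2
      have h3 : ‖v‖⁻¹ * ‖fderiv ℂ h u v‖ ≤ Real.sqrt S := Real.le_sqrt_of_sq_le h2
      calc ‖fderiv ℂ h u v‖ = (‖v‖⁻¹ * ‖fderiv ℂ h u v‖) * ‖v‖ := by field_simp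
        _ ≤ Real.sqrt S * ‖v‖ := mul_le_mul_of_nonneg_right h3 hv0.le
  calc ‖fderiv ℂ h u‖ ^ 2 ≤ Real.sqrt S ^ 2 := pow_le_pow_left₀ (norm_nonneg _) hle 2
    _ = S := Real.sq_sqrt hS0

end Pool.Agent.H39.SX
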