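import Pool.Agent.H39.SX.Line

/-!
# A quotient which is locally bounded outside of a small set

PROOF.  If `H u₀ ≠ 0` use continuity.  Otherwise there is `u₁` near `u₀` (on a ball where `H` and `w` are analytic and `hloc` holds) with
`H u₁ ≠ 0`; `v = u₁ - u₀ ≠ 0`.  The function `t ↦ H (u₀ + t • v)` is analytic near the closed unit disc and not identically zero near `0`
(identity theorem on the ball / on the segment), so there is `R ∈ (0, 1)` with `H (u₀ + t • v) ≠ 0` for `‖t‖ = R` (isolated zero at `0`: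
`AnalyticAt.eventually_eq_zero_or_eventually_ne_zero`).  By compactness of the sphere and continuity there are `c > 0`, `A` and a neighbourhood
`U` of `u₀` with `c ≤ ‖H (u + t • v)‖`, `‖w (u + t • v)‖ ≤ A` for `u ∈ U`, `‖t‖ = R`, and all `u + t • v`, `u ∈ U`, `‖t‖ ≤ R`, lie in the ball
(`IsCompact.eventually_forall_of_forall_eventually` or a tube lemma).  For `u ∈ U ∩ D` (`D` of `hZ v`) `norm_le_of_quotient` for
`t ↦ w (u + t • v)`, `t ↦ H (u + t • v)` gives `‖w u‖ ≤ A / c * ‖H u‖`.  `D` is dense and both sides are continuous near `u₀`, so it holds for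
all `u` in an open neighbourhood of `u₀`.
-/

open Topology Filter

noncomputable section

namespace Pool.Agent.H39.SX

theorem hartogs {n : ℕ} {w H : (Fin n → ℂ) → ℂ} {u₀ : Fin n → ℂ} (hw : AnalyticAt ℂ w u₀)
    (hH : AnalyticAt ℂ H u₀) (hne : ¬ ∀ᶠ u in 𝓝 u₀, H u = 0) (Z : Set (Fin n → ℂ))
    (hloc : ∀ᶠ u in 𝓝 u₀, u ∉ Z → ∃ C : ℝ, ∀ᶠ u' in 𝓝 u, ‖w u'‖ ≤ C * ‖H u'‖)
    (hZ : ∀ v : Fin n → ℂ, v ≠ 0 → ∃ D : Set (Fin n → ℂ), Dense D ∧
      ∀ u ∈ D, ∀ t : ℂ, u + t • v ∉ Z) :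
    ∃ C : ℝ, 0 ≤ C ∧ ∀ᶠ u in 𝓝 u₀, ‖w u‖ ≤ C * ‖H u‖ := by
  by_cases h0 : H u₀ ≠ 0
  · have hpos : 0 < ‖H u₀‖ := norm_pos_iff.2 h0
    refine ⟨(‖w u₀‖ + 1) / (‖H u₀‖ / 2), by positivity, ?_⟩
    have e1 : ∀ᶠ u in 𝓝 u₀, ‖w u‖ < ‖w u₀‖ + 1 :=
      hw.continuousAt.norm.eventually (gt_mem_nhds (lt_add_one _))
    have e2 : ∀ᶠ u in 𝓝 u₀, ‖H u₀‖ / 2 < ‖H u‖ :=
      hH.continuousAt.norm.eventually (lt_mem_nhds (half_lt_self hpos))
    filter_upwards [e1, e2] with u h1 h2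
    rw [div_mul_eq_mul_div, le_div_iff₀ (by positivity)]
    exact mul_le_mul h1.le h2.le (by positivity) (by positivity)
  rw [not_not] at h0
  obtain ⟨r, hr, hball⟩ := Metric.eventually_nhds_iff_ball.1
    ((hw.eventually_analyticAt.and hH.eventually_analyticAt).and hloc)
  obtain ⟨u₁, hu₁, hu₁b⟩ := ((not_eventually.1 hne).and_eventually (Metric.ball_mem_nhds u₀ hr)).exists
  obtain ⟨v, hv⟩ : ∃ v, v = u₁ - u₀ := ⟨_, rfl⟩
  have hv0 : v ≠ 0 := by
    intro h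
    rw [h] at hv
    apply hu₁
    rw [← sub_eq_zero.1 hv.symm] at h0
    exact h0
  have hvn : 0 < ‖v‖ := norm_pos_iff.2 hv0
  have hvr : ‖v‖ < r := by
    rw [hv, ← dist_eq_norm]
    exact hu₁b
  have hlin : ∀ (u : Fin n → ℂ) (t : ℂ), AnalyticAt ℂ (fun t : ℂ => u + t • v) t := by
    intro u t
    exact analyticAt_const.add (analyticAt_id.smul analyticAt_const)
  have hmem : ∀ (u : Fin n → ℂ) (t : ℂ), ‖u - u₀‖ + ‖t‖ * ‖v‖ < r → u + t • v ∈ Metric.ball u₀ r := by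
    intro u t h
    rw [Metric.mem_ball, dist_eq_norm]
    calc ‖u + t • v - u₀‖ = ‖(u - u₀) + t • v‖ := by congr 1; abel
      _ ≤ ‖u - u₀‖ + ‖t • v‖ := norm_add_le _ _
      _ = ‖u - u₀‖ + ‖t‖ * ‖v‖ := by rw [norm_smul]
      _ < r := h
  have hHl : ∀ (u : Fin n → ℂ) (t : ℂ), ‖u - u₀‖ + ‖t‖ * ‖v‖ < r →
      AnalyticAt ℂ (fun t : ℂ => H (u + t • v)) t := by
    intro u t h
    exact AnalyticAt.fun_comp (hball _ (hmem u t h)).1.2 (hlin u t)
  have hwl : ∀ (u : Fin n → ℂ) (t : ℂ), ‖u - u₀‖ + ‖t‖ * ‖v‖ < r →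
      AnalyticAt ℂ (fun t : ℂ => w (u + t • v)) t := by
    intro u t h
    exact AnalyticAt.fun_comp (hball _ (hmem u t h)).1.1 (hlin u t)
  -- the function on the line through the centre
  obtain ⟨R, hR0, hR1, hRne⟩ : ∃ R : ℝ, 0 < R ∧ R < 1 ∧
      ∀ t : ℂ, ‖t‖ = R → H (u₀ + t • v) ≠ 0 := by
    have hne' : ¬ ∀ᶠ t in 𝓝 (0 : ℂ), H (u₀ + t • v) = 0 := by
      intro h
      have hpre : IsPreconnected (Metric.ball (0 : ℂ) (r / ‖v‖)) :=
        (convex_ball (0 : ℂ) _).isPreconnected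
      have han : AnalyticOnNhd ℂ (fun t : ℂ => H (u₀ + t • v)) (Metric.ball (0 : ℂ) (r / ‖v‖)) := by
        intro t ht
        apply hHl
        rw [mem_ball_zero_iff, lt_div_iff₀ hvn] at ht
        rwa [sub_self, norm_zero, zero_add]
      have h1 := han.eqOn_zero_of_preconnected_of_eventuallyEq_zero hpre
        (Metric.mem_ball_self (div_pos hr hvn)) h
      have h2 : (1 : ℂ) ∈ Metric.ball (0 : ℂ) (r / ‖v‖) := by
        rw [mem_ball_zero_iff, norm_one, lt_div_iff₀ hvn, one_mul]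
        exact hvr
      have h3 := h1 h2
      apply hu₁
      have h4 : u₀ + (1 : ℂ) • v = u₁ := by rw [one_smul, hv]; abel
      have h5 : H (u₀ + (1 : ℂ) • v) = 0 := h3
      rwa [h4] at h5
    have h0r : ‖u₀ - u₀‖ + ‖(0 : ℂ)‖ * ‖v‖ < r := by
      rw [sub_self, norm_zero, norm_zero, zero_mul, zero_add]
      exact hr
    rcases (hHl u₀ 0 h0r).eventually_eq_zero_or_eventually_ne_zero with h | h
    · exact absurd h hne'
    · rw [eventually_nhdsWithin_iff, Metric.eventually_nhds_iff_ball] at h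
      obtain ⟨ρ, hρ, hb⟩ := h
      refine ⟨min (ρ / 2) (1 / 2), by positivity, ?_, ?_⟩
      · exact lt_of_le_of_lt (min_le_right _ _) (by norm_num)
      · intro t ht
        apply hb t
        · rw [mem_ball_zero_iff, ht]
          exact lt_of_le_of_lt (min_le_left _ _) (half_lt_self hρ)
        · intro h
          rw [Set.mem_singleton_iff] at h
          rw [h, norm_zero] at ht
          have : 0 < min (ρ / 2) (1 / 2 : ℝ) := by positivity
          exact absurd ht this.ne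
  have hK : IsCompact (Metric.sphere (0 : ℂ) R) := isCompact_sphere 0 R
  have hKne : (Metric.sphere (0 : ℂ) R).Nonempty := ⟨(R : ℂ), by
    rw [mem_sphere_zero_iff_norm, Complex.norm_real, Real.norm_of_nonneg hR0.le]⟩
  have hKr : ∀ t ∈ Metric.sphere (0 : ℂ) R, ‖u₀ - u₀‖ + ‖t‖ * ‖v‖ < r := by
    intro t ht
    rw [mem_sphere_zero_iff_norm] at ht
    rw [sub_self, norm_zero, zero_add, ht]
    nlinarith
  obtain ⟨t₀, ht₀, hmin⟩ := hK.exists_isMinOn hKne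
    (f := fun t : ℂ => ‖H (u₀ + t • v)‖) (fun t ht => (hHl u₀ t (hKr t ht)).continuousAt.norm.continuousWithinAt)
  obtain ⟨A₀, hA₀⟩ := hK.exists_bound_of_continuousOn
    (f := fun t : ℂ => w (u₀ + t • v)) (fun t ht => (hwl u₀ t (hKr t ht)).continuousAt.continuousWithinAt)
  have hm0 : 0 < ‖H (u₀ + t₀ • v)‖ :=
    norm_pos_iff.2 (hRne t₀ (mem_sphere_zero_iff_norm.1 ht₀))
  obtain ⟨c, hc⟩ : ∃ c, c = ‖H (u₀ + t₀ • v)‖ / 2 := ⟨_, rfl⟩
  have hc0 : 0 < c := by rw [hc]; positivity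
  have hA₀0 : 0 ≤ A₀ := le_trans (norm_nonneg _) (hA₀ t₀ ht₀)
  have hcomp : ∀ᶠ u in 𝓝 u₀, ∀ t ∈ Metric.sphere (0 : ℂ) R,
      c ≤ ‖H (u + t • v)‖ ∧ ‖w (u + t • v)‖ ≤ A₀ + 1 := by
    apply hK.eventually_forall_of_forall_eventually
      (P := fun u t => c ≤ ‖H (u + t • v)‖ ∧ ‖w (u + t • v)‖ ≤ A₀ + 1)
    intro t ht
    have hcont : ContinuousAt (fun z : (Fin n → ℂ) × ℂ => z.1 + z.2 • v) (u₀, t) := by fun_prop
    have hp := (hball _ (hmem u₀ t (hKr t ht))).1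
    have c1 : ContinuousAt (fun z : (Fin n → ℂ) × ℂ => ‖H (z.1 + z.2 • v)‖) (u₀, t) :=
      (ContinuousAt.comp (x := (u₀, t)) (g := H) hp.2.continuousAt hcont).norm
    have c2 : ContinuousAt (fun z : (Fin n → ℂ) × ℂ => ‖w (z.1 + z.2 • v)‖) (u₀, t) :=
      (ContinuousAt.comp (x := (u₀, t)) (g := w) hp.1.continuousAt hcont).norm
    have l1 : c < ‖H (u₀ + t • v)‖ := by
      have := hmin ht
      simp only at this
      calc c < ‖H (u₀ + t₀ • v)‖ := by rw [hc]; exact half_lt_self hm0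
        _ ≤ _ := this
    have l2 : ‖w (u₀ + t • v)‖ < A₀ + 1 := lt_of_le_of_lt (hA₀ t ht) (lt_add_one _)
    filter_upwards [c1.eventually (lt_mem_nhds l1), c2.eventually (gt_mem_nhds l2)] with z h1 h2
    exact ⟨h1.le, h2.le⟩
  obtain ⟨ε, hε, hεb⟩ := Metric.eventually_nhds_iff_ball.1
    (hcomp.and (Metric.ball_mem_nhds u₀ (sub_pos.2 hvr)))
  obtain ⟨D, hD, hDZ⟩ := hZ v hv0
  have hkey : ∀ u ∈ Metric.ball u₀ ε, u ∈ D → ‖w u‖ ≤ (A₀ + 1) / c * ‖H u‖ := by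
    intro u hu huD
    obtain ⟨h1, h2⟩ := hεb u hu
    have h2' : ‖u - u₀‖ < r - ‖v‖ := by rwa [← dist_eq_norm]
    have hlt : ∀ z ∈ Metric.closedBall (0 : ℂ) R, ‖u - u₀‖ + ‖z‖ * ‖v‖ < r := by
      intro z hz
      rw [mem_closedBall_zero_iff] at hz
      have : ‖z‖ * ‖v‖ ≤ ‖v‖ := by
        have : ‖z‖ ≤ 1 := hz.trans hR1.le
        nlinarith
      linarith
    have h3 := norm_le_of_quotient (w := fun t : ℂ => w (u + t • v)) (h := fun t : ℂ => H (u + t • v))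
      (A := A₀ + 1) (c := c) hR0 (fun z hz => hwl u z (hlt z hz)) (fun z hz => hHl u z (hlt z hz))
      (fun z hz => (h1 z hz).2) hc0 (fun z hz => (h1 z hz).1) (by
        intro z hz _
        have hzc : z ∈ Metric.closedBall (0 : ℂ) R := Metric.ball_subset_closedBall hz
        obtain ⟨C, hC⟩ := (hball _ (hmem u z (hlt z hzc))).2 (hDZ u huD z)
        exact ⟨C, (hlin u z).continuousAt.eventually hC⟩) 0 (Metric.mem_closedBall_self hR0.le)
    simpa using h3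
  refine ⟨(A₀ + 1) / c, by positivity, ?_⟩
  have hmin' : 0 < min ε r := lt_min hε hr
  filter_upwards [Metric.ball_mem_nhds u₀ hmin'] with u hu
  have hu1 : u ∈ Metric.ball u₀ ε := Metric.ball_subset_ball (min_le_left _ _) hu
  have hu2 : u ∈ Metric.ball u₀ r := Metric.ball_subset_ball (min_le_right _ _) hu
  by_contra hcon
  rw [not_le] at hcon
  have ha := (hball u hu2).1
  have c1 : ContinuousAt (fun x => ‖w x‖ - (A₀ + 1) / c * ‖H x‖) u :=
    ha.1.continuousAt.norm.sub (continuousAt_const.mul ha.2.continuousAt.norm)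
  have e1 : ∀ᶠ x in 𝓝 u, 0 < ‖w x‖ - (A₀ + 1) / c * ‖H x‖ :=
    c1.eventually (lt_mem_nhds (by simpa using hcon))
  obtain ⟨x, hxD, hx1, hx2⟩ := hD.inter_nhds_nonempty
    (e1.and (Metric.isOpen_ball.mem_nhds hu1) : _ ∈ 𝓝 u)
  have := hkey x hx2 hxD
  linarith

end Pool.Agent.H39.SX
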