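import Pool.Agent.H39.SX.Grad
import Pool.Agent.H13.SM.Inv

/-!
# The Jacobian determinant near a hypersurface with critical preimage

PROOF.  Let `A u` be the matrix of `fderiv ℂ Φ u` (`A u c k = (fderiv ℂ Φ u (Pi.single k 1)) c`), `h u = eval (Φ u) G`.  Chain rule:
`fderiv ℂ h u (Pi.single k 1) = ∑ c, eval (Φ u) (pderiv c G) * A u c k` near `u₀` (derivative of `y ↦ eval y G`:
`Pool.Agent.H13.SM.Inv_hasFDerivAt_eval`).  So, by `A * adjugate A = det A • 1`,
`eval (Φ u) (pderiv b G) * det (A u) = ∑ k, fderiv ℂ h u (Pi.single k 1) * adjugate (A u) k b`.  The entries of the adjugate matrix are bounded near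
`u₀`, so `‖eval (Φ u) (pderiv b G)‖ * ‖det‖ ≤ C₁ * ‖fderiv ℂ h u‖`; square, `norm_fderiv_sq_le`, and `‖eval (Φ u) (pderiv b G)‖ ≥ c > 0` near `u₀`.
(`ContinuousLinearMap.det`, `LinearMap.det_toMatrix'`.)
-/

open Topology Filter MvPolynomial

noncomputable section

namespace Pool.Agent.H39.SX

private theorem Jac_toMatrix {n : ℕ} (L : (Fin n → ℂ) →L[ℂ] (Fin n → ℂ)) (c k : Fin n) :
    LinearMap.toMatrix' (L : (Fin n → ℂ) →ₗ[ℂ] (Fin n → ℂ)) c k = L (Pi.single k 1) c := by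
  rw [LinearMap.toMatrix'_apply]
  simp only [ContinuousLinearMap.coe_coe]

private theorem Jac_det {n : ℕ} (L : (Fin n → ℂ) →L[ℂ] (Fin n → ℂ)) :
    L.det = (Matrix.of fun c k => L (Pi.single k 1) c).det := by
  have h1 : (Matrix.of fun c k => L (Pi.single k 1) c) =
      LinearMap.toMatrix' (L : (Fin n → ℂ) →ₗ[ℂ] (Fin n → ℂ)) := by
    ext c k
    rw [Jac_toMatrix]
    rfl
  rw [h1, LinearMap.det_toMatrix']

private theorem Jac_adj {n : ℕ} (A : Matrix (Fin n) (Fin n) ℂ) (g : Fin n → ℂ) (b : Fin n) :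
    g b * A.det = ∑ k, (∑ c, g c * A c k) * A.adjugate k b := by
  have h1 : ∀ c, ∑ k, A c k * A.adjugate k b = A.det * (if c = b then 1 else 0) := by
    intro c
    have h2 := congrFun (congrFun (Matrix.mul_adjugate A) c) b
    rw [Matrix.mul_apply] at h2
    rw [h2, Matrix.smul_apply, Matrix.one_apply, smul_eq_mul]
  calc g b * A.det = ∑ c, g c * (A.det * (if c = b then 1 else 0)) := by
        rw [Finset.sum_eq_single b]
        · rw [if_pos rfl, mul_one]
        · intro c _ hc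
          rw [if_neg hc, mul_zero, mul_zero]
        · intro h
          exact absurd (Finset.mem_univ b) h
    _ = ∑ c, g c * ∑ k, A c k * A.adjugate k b := by
        refine Finset.sum_congr rfl fun c _ => ?_
        rw [h1 c]
    _ = ∑ c, ∑ k, g c * (A c k * A.adjugate k b) := by
        refine Finset.sum_congr rfl fun c _ => ?_
        rw [Finset.mul_sum]
    _ = ∑ k, ∑ c, g c * (A c k * A.adjugate k b) := Finset.sum_comm
    _ = ∑ k, (∑ c, g c * A c k) * A.adjugate k b := by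
        refine Finset.sum_congr rfl fun k _ => ?_
        rw [Finset.sum_mul]
        refine Finset.sum_congr rfl fun c _ => ?_
        ring

theorem jac_sq_le {n : ℕ} {Φ : (Fin n → ℂ) → Fin n → ℂ} {u₀ : Fin n → ℂ}
    (hΦ : AnalyticAt ℂ Φ u₀) {G : MvPolynomial (Fin n) ℂ} (b : Fin n)
    (hb : eval (Φ u₀) (pderiv b G) ≠ 0)
    (h0 : ∀ᶠ u in 𝓝 u₀, eval (Φ u) G = 0 → fderiv ℂ (fun u' => eval (Φ u') G) u = 0) :
    ∃ C : ℝ, 0 ≤ C ∧ ∀ᶠ u in 𝓝 u₀, ‖(fderiv ℂ Φ u).det‖ ^ 2 ≤ C * ‖eval (Φ u) G‖ := by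
  classical
  have hcomp : ∀ P : MvPolynomial (Fin n) ℂ, AnalyticAt ℂ (fun u => eval (Φ u) P) u₀ := by
    intro P
    have h1 : ∀ i, AnalyticAt ℂ (fun u => Φ u i) u₀ := fun i => (analyticAt_pi_iff.1 hΦ) i
    have h2 := AnalyticAt.aeval_mvPolynomial h1 P
    exact h2
  obtain ⟨C₁, hC₁, hgrad⟩ := norm_fderiv_sq_le (hcomp G) h0
  -- the matrix
  obtain ⟨A, hA⟩ : ∃ A : (Fin n → ℂ) → Matrix (Fin n) (Fin n) ℂ,
      A = fun u => Matrix.of fun c k => fderiv ℂ Φ u (Pi.single k 1) c := ⟨_, rfl⟩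
  have hAcont : ContinuousAt A u₀ := by
    rw [hA]
    have h1 : ContinuousAt (fderiv ℂ Φ) u₀ := hΦ.fderiv.continuousAt
    refine continuousAt_pi.2 fun c => continuousAt_pi.2 fun k => ?_
    have h2 : ContinuousAt (fun u => fderiv ℂ Φ u (Pi.single k 1)) u₀ := h1.clm_apply continuousAt_const
    exact (continuousAt_pi.1 h2) c
  have hadj : ContinuousAt (fun u => ∑ k, ‖(A u).adjugate k b‖) u₀ := by
    have h1 : Continuous fun M : Matrix (Fin n) (Fin n) ℂ => ∑ k, ‖M.adjugate k b‖ := by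
      refine continuous_finsetSum _ fun k _ => ?_
      have h2 : Continuous fun M : Matrix (Fin n) (Fin n) ℂ => M.adjugate :=
        Continuous.matrix_adjugate continuous_id
      exact (h2.matrix_elem k b).norm
    exact h1.continuousAt.comp hAcont
  obtain ⟨K, hK⟩ : ∃ K : ℝ, K = ∑ k, ‖(A u₀).adjugate k b‖ + 1 := ⟨_, rfl⟩
  have hK0 : 0 ≤ K := by
    rw [hK]
    positivity
  have hSK : ∀ᶠ u in 𝓝 u₀, ∑ k, ‖(A u).adjugate k b‖ < K := by
    refine hadj.eventually_lt continuousAt_const ?_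
    rw [hK]
    linarith
  obtain ⟨c, hc⟩ : ∃ c : ℝ, c = ‖eval (Φ u₀) (pderiv b G)‖ / 2 := ⟨_, rfl⟩
  have hb' : 0 < ‖eval (Φ u₀) (pderiv b G)‖ := norm_pos_iff.2 hb
  have hc0 : 0 < c := by
    rw [hc]
    linarith
  have hgc : ∀ᶠ u in 𝓝 u₀, c < ‖eval (Φ u) (pderiv b G)‖ := by
    have h1 : ContinuousAt (fun u => ‖eval (Φ u) (pderiv b G)‖) u₀ := (hcomp (pderiv b G)).continuousAt.norm
    refine continuousAt_const.eventually_lt h1 ?_
    rw [hc]
    linarith
  refine ⟨K ^ 2 / c ^ 2 * C₁, by positivity, ?_⟩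
  filter_upwards [hgrad, hSK, hgc, hΦ.eventually_analyticAt] with u h1 h2 h3 h4
  have hd : HasFDerivAt Φ (fderiv ℂ Φ u) u := h4.differentiableAt.hasFDerivAt
  have hh := (Pool.Agent.H13.SM.Inv_hasFDerivAt_eval G (Φ u)).comp u hd
  have hfd : ∀ k, fderiv ℂ (fun u' => eval (Φ u') G) u (Pi.single k 1) =
      ∑ c, eval (Φ u) (pderiv c G) * A u c k := by
    intro k
    have h5 : fderiv ℂ (fun u' => eval (Φ u') G) u = _ := hh.fderiv
    rw [h5, hA]
    simp only [ContinuousLinearMap.comp_apply, ContinuousLinearMap.sum_apply, ContinuousLinearMap.smul_apply,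
      ContinuousLinearMap.proj_apply, smul_eq_mul, Matrix.of_apply]
  have hdet : (fderiv ℂ Φ u).det = (A u).det := by
    rw [Jac_det, hA]
  have hid := Jac_adj (A u) (fun c => eval (Φ u) (pderiv c G)) b
  simp only [← hfd] at hid
  rw [hdet]
  have hbound : ‖eval (Φ u) (pderiv b G)‖ * ‖(A u).det‖ ≤
      ‖fderiv ℂ (fun u' => eval (Φ u') G) u‖ * K := by
    rw [← norm_mul, hid]
    refine (norm_sum_le _ _).trans ?_
    calc ∑ k, ‖fderiv ℂ (fun u' => eval (Φ u') G) u (Pi.single k 1) * (A u).adjugate k b‖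
        ≤ ∑ k, ‖fderiv ℂ (fun u' => eval (Φ u') G) u‖ * ‖(A u).adjugate k b‖ := by
          refine Finset.sum_le_sum fun k _ => ?_
          rw [norm_mul]
          refine mul_le_mul_of_nonneg_right ?_ (norm_nonneg _)
          refine (ContinuousLinearMap.le_opNorm _ _).trans ?_
          have h6 : ‖(Pi.single k 1 : Fin n → ℂ)‖ ≤ 1 := by
            rw [pi_norm_le_iff_of_nonneg zero_le_one]
            intro j
            rw [Pi.single_apply]
            split_ifs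
            · simp
            · simp
          calc ‖fderiv ℂ (fun u' => eval (Φ u') G) u‖ * ‖(Pi.single k 1 : Fin n → ℂ)‖
              ≤ ‖fderiv ℂ (fun u' => eval (Φ u') G) u‖ * 1 := mul_le_mul_of_nonneg_left h6 (norm_nonneg _)
            _ = _ := mul_one _
      _ = ‖fderiv ℂ (fun u' => eval (Φ u') G) u‖ * ∑ k, ‖(A u).adjugate k b‖ := by
          rw [Finset.mul_sum]
      _ ≤ ‖fderiv ℂ (fun u' => eval (Φ u') G) u‖ * K := mul_le_mul_of_nonneg_left h2.le (norm_nonneg _)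
  have hcd : c * ‖(A u).det‖ ≤ ‖fderiv ℂ (fun u' => eval (Φ u') G) u‖ * K :=
    (mul_le_mul_of_nonneg_right h3.le (norm_nonneg _)).trans hbound
  have hsq : c ^ 2 * ‖(A u).det‖ ^ 2 ≤ ‖fderiv ℂ (fun u' => eval (Φ u') G) u‖ ^ 2 * K ^ 2 := by
    have h7 := pow_le_pow_left₀ (by positivity) hcd 2
    rw [mul_pow, mul_pow] at h7
    exact h7
  have hfin : c ^ 2 * ‖(A u).det‖ ^ 2 ≤ C₁ * ‖eval (Φ u) G‖ * K ^ 2 :=
    hsq.trans (mul_le_mul_of_nonneg_right h1 (by positivity))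
  have hc2 : 0 < c ^ 2 := by positivity
  have h8 : ‖(A u).det‖ ^ 2 ≤ C₁ * ‖eval (Φ u) G‖ * K ^ 2 / c ^ 2 := by
    rw [le_div_iff₀ hc2]
    linarith
  refine h8.trans (le_of_eq ?_)
  ring

end Pool.Agent.H39.SX
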