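import Pool.Agent.H5.DG.CoverDefs

/-!
# Ramification along a chart

PROOF.  Choose `i` with `τ u i ≠ 0` and `k` with `X i ^ k * H ∈ (radical (span {H} ⊔ P)) ^ 2 ⊔ P`.  Every element `g` of the radical satisfies
`eval (τ u) g = 0` (`g ^ m = a * H + q`, `q ∈ P`, evaluate at `τ u`, where `H` and `P` vanish; `h`, `hP.self_of_nhds`).  So for every element `g` of
`(radical ..) ^ 2 ⊔ P` the function `u' ↦ eval (τ u') g` has derivative zero at `u`: for a product of two elements of the radical by the product rule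
(both vanish at `u`), for elements of `P` since the function is zero near `u`; sums and multiples (`Submodule.mul_induction_on`, `Ideal.mul`;
all functions are analytic at `u`).  For `g = X i ^ k * H`: the derivative is `(τ u i) ^ k • fderiv (eval (τ ·) H) u + eval (τ u) H • _`.
-/

open Topology Filter MvPolynomial
open Pool.Agent.H5.DG (RamM)

noncomputable section

namespace Pool.Agent.H39.SX

private theorem ram_analytic {n N : ℕ} {τ : (Fin n → ℂ) → Fin (N + 1) → ℂ} {u : Fin n → ℂ}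
    (hτ : AnalyticAt ℂ τ u) (g : MvPolynomial (Fin (N + 1)) ℂ) :
    AnalyticAt ℂ (fun u' => eval (τ u') g) u := by
  have h := AnalyticAt.aeval_mvPolynomial (f := τ) (z := u) (analyticAt_pi_iff.1 hτ) g
  simpa only [MvPolynomial.aeval_eq_eval] using h

private theorem ram_mul {n N : ℕ} {τ : (Fin n → ℂ) → Fin (N + 1) → ℂ} {u : Fin n → ℂ}
    (hτ : AnalyticAt ℂ τ u) (a b : MvPolynomial (Fin (N + 1)) ℂ) :
    fderiv ℂ (fun u' => eval (τ u') (a * b)) u =
      eval (τ u) a • fderiv ℂ (fun u' => eval (τ u') b) u +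
        eval (τ u) b • fderiv ℂ (fun u' => eval (τ u') a) u := by
  have h : (fun u' => eval (τ u') (a * b)) = (fun u' => eval (τ u') a * eval (τ u') b) := by
    funext u'
    rw [map_mul]
  rw [h]
  exact fderiv_fun_mul (ram_analytic hτ a).differentiableAt (ram_analytic hτ b).differentiableAt

private theorem ram_add {n N : ℕ} {τ : (Fin n → ℂ) → Fin (N + 1) → ℂ} {u : Fin n → ℂ}
    (hτ : AnalyticAt ℂ τ u) (a b : MvPolynomial (Fin (N + 1)) ℂ) :
    fderiv ℂ (fun u' => eval (τ u') (a + b)) u =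
      fderiv ℂ (fun u' => eval (τ u') a) u + fderiv ℂ (fun u' => eval (τ u') b) u := by
  have h : (fun u' => eval (τ u') (a + b)) = (fun u' => eval (τ u') a + eval (τ u') b) := by
    funext u'
    rw [map_add]
  rw [h]
  exact fderiv_fun_add (ram_analytic hτ a).differentiableAt (ram_analytic hτ b).differentiableAt

theorem fderiv_eq_zero_of_ramM {n N : ℕ} {P : Ideal (MvPolynomial (Fin (N + 1)) ℂ)}
    {H : MvPolynomial (Fin (N + 1)) ℂ} (hR : RamM 2 P H) {τ : (Fin n → ℂ) → Fin (N + 1) → ℂ}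
    {u : Fin n → ℂ} (hτ : AnalyticAt ℂ τ u) (hP : ∀ᶠ u' in 𝓝 u, ∀ Q ∈ P, eval (τ u') Q = 0)
    (hne : τ u ≠ 0) (h : eval (τ u) H = 0) : fderiv ℂ (fun u' => eval (τ u') H) u = 0 := by
  classical
  have hP0 : ∀ Q ∈ P, eval (τ u) Q = 0 := hP.self_of_nhds
  have hrad : Ideal.radical (Ideal.span {H} ⊔ P) ≤ RingHom.ker (eval (τ u)) := by
    refine ((RingHom.ker_isPrime (eval (τ u))).radical_le_iff).2 (sup_le ?_ fun Q hQ => ?_)
    · rw [Ideal.span_singleton_le_iff_mem]
      exact h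
    · exact hP0 Q hQ
  have hsq : ∀ g ∈ Ideal.radical (Ideal.span {H} ⊔ P) * Ideal.radical (Ideal.span {H} ⊔ P),
      fderiv ℂ (fun u' => eval (τ u') g) u = 0 := by
    intro g hg
    induction hg using Submodule.mul_induction_on' with
    | mem_mul_mem a ha b hb =>
      have h1 : eval (τ u) a = 0 := hrad ha
      have h2 : eval (τ u) b = 0 := hrad hb
      rw [ram_mul hτ, h1, h2]
      ext v
      simp
    | add a _ b _ ha hb => rw [ram_add hτ, ha, hb, add_zero]
  have hPd : ∀ g ∈ P, fderiv ℂ (fun u' => eval (τ u') g) u = 0 := by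
    intro g hg
    have h1 : (fun u' => eval (τ u') g) =ᶠ[𝓝 u] fun _ => 0 := by
      filter_upwards [hP] with u' hu'
      exact hu' g hg
    rw [h1.fderiv_eq]
    exact fderiv_const_apply 0
  obtain ⟨i, hi⟩ := Function.ne_iff.1 hne
  obtain ⟨k, hk⟩ := hR i
  obtain ⟨g₁, hg₁, g₂, hg₂, hg⟩ := Submodule.mem_sup.1 hk
  rw [sq] at hg₁
  have h1 : fderiv ℂ (fun u' => eval (τ u') (X i ^ k * H)) u = 0 := by
    rw [← hg, ram_add hτ, hsq g₁ hg₁, hPd g₂ hg₂, add_zero]
  rw [ram_mul hτ, h, map_pow, eval_X] at h1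
  ext v
  have h2 := congrArg (fun L : (Fin n → ℂ) →L[ℂ] ℂ => L v) h1
  simpa [pow_eq_zero_iff', show τ u i ≠ 0 from hi] using h2

end Pool.Agent.H39.SX
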