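import Pool.Agent.H39.SX.Hartogs
import Pool.Agent.H39.SX.Jac
import Pool.Agent.H39.SX.Dens
import Pool.Agent.H39.SX.Ram
import Pool.Agent.H39.SX.Alg

/-!
# The square of the Jacobian is divisible by the product of the ramified divisors

PROOF.  `Φ u a = eval (τ u) (F a)` is analytic at `0` (and near `0`), `eval (Φ u) G = eval (τ u) (aeval F G)`.  `hartogs` with
`w u = (fderiv ℂ Φ u).det ^ 2`, `H u = ∏ j, eval (Φ u) (G j)`; `hne` of `hartogs` from `hnz`.  For each `j` let `b j` be as in `exists_pderiv`.  Let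
`Z` be the set of the `u` with `∀ Q ∈ P, eval (τ u) Q = 0`, `∀ k, τ u (I k) = x (I k) + u k` and [there are `i ≠ j` with `eval (Φ u) (G i) = eval (Φ u) (G j) = 0`,
or there is `j` with `eval (Φ u) (G j) = eval (Φ u) (pderiv (b j) (G j)) = 0`].
`hloc`: for all `u` near `0`: `τ` is analytic at `u`, not zero at `u` (`τ 0 = x ≠ 0`), the two chart equations hold near `u` (`eventually_eventually_nhds`).  Let `u ∉ Z`.
If `H u ≠ 0` use continuity.  Otherwise there is exactly one `j` with `eval (Φ u) (G j) = 0`, and `eval (Φ u) (pderiv (b j) (G j)) ≠ 0`; `jac_sq_le` at `u` (its `h0` by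
`fderiv_eq_zero_of_ramM` at the points near `u`), and the other factors of `H` are bounded below near `u`.
`hZ`: given `v ≠ 0` choose `b` with `v b ≠ 0` and `Λ a = X (I (b.succAbove a)) - C (v (b.succAbove a) / v b) * X (I b)`; `exists_rel` for the pairs
`(G i, G j)`, `i ≠ j`, and `(G j, pderiv (b j) (G j))`; `R` = the product of all these polynomials, `D = {u | eval (x' + linMod v b u) R ≠ 0}` with
`x' a = eval x (Λ a)` (`dense_lines`).  If `u ∈ D` and `u + t • v ∈ Z` then `eval (τ (u + t • v)) (Λ a) = x' a + linMod v b (u + t • v) a = x' a + linMod v b u a`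
(`linMod_add`), so `R` vanishes there, a contradiction.  Finally `‖det ^ 2‖ = ‖det‖ ^ 2`, `‖∏‖ = ∏ ‖‖`.
-/

open Topology Filter MvPolynomial
open Pool.Agent.H5.DG (Homog BaseFree RamM)

noncomputable section

namespace Pool.Agent.H39.SX

private theorem bound_of_ne {E : Type*} [TopologicalSpace E] {w H : E → ℂ} {u : E}
    (hw : ContinuousAt w u) (hH : ContinuousAt H u) (hne : H u ≠ 0) :
    ∃ C : ℝ, 0 ≤ C ∧ ∀ᶠ u' in 𝓝 u, ‖w u'‖ ≤ C * ‖H u'‖ := by
  have h1 : ∀ᶠ u' in 𝓝 u, ‖w u'‖ < ‖w u‖ + 1 := hw.norm.eventually_lt_const (lt_add_one _)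
  have hpos : 0 < ‖H u‖ := norm_pos_iff.2 hne
  have h2 : ∀ᶠ u' in 𝓝 u, ‖H u‖ / 2 < ‖H u'‖ := hH.norm.eventually_const_lt (half_lt_self hpos)
  refine ⟨(‖w u‖ + 1) / (‖H u‖ / 2), by positivity, ?_⟩
  filter_upwards [h1, h2] with u' h3 h4
  calc ‖w u'‖ ≤ ‖w u‖ + 1 := h3.le
    _ = (‖w u‖ + 1) / (‖H u‖ / 2) * (‖H u‖ / 2) := by field_simp
    _ ≤ (‖w u‖ + 1) / (‖H u‖ / 2) * ‖H u'‖ :=
      mul_le_mul_of_nonneg_left h4.le (by positivity)

private theorem analyticAt_det {n : ℕ} {Φ : (Fin n → ℂ) → Fin n → ℂ} {u : Fin n → ℂ}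
    (h : AnalyticAt ℂ Φ u) : AnalyticAt ℂ (fun u' => (fderiv ℂ Φ u').det) u := by
  have h1 : ∀ u', (fderiv ℂ Φ u').det =
      (Matrix.of fun c k => fderiv ℂ Φ u' (Pi.single k 1) c).det := by
    intro u'
    rw [ContinuousLinearMap.det, ← LinearMap.det_toMatrix']
    congr 1
  have h2 : (fun u' => (fderiv ℂ Φ u').det) = fun u' =>
      ∑ σ : Equiv.Perm (Fin n), ((Equiv.Perm.sign σ : ℤ) : ℂ) *
        ∏ k, fderiv ℂ Φ u' (Pi.single k 1) (σ k) := by
    funext u'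
    rw [h1, Matrix.det_apply']
    rfl
  rw [h2]
  refine Finset.analyticAt_fun_sum _ fun σ _ => ?_
  refine analyticAt_const.mul (Finset.analyticAt_fun_prod _ fun k _ => ?_)
  have h3 := h.fderiv
  have h4 : AnalyticAt ℂ (fun u' => fderiv ℂ Φ u' (Pi.single k 1)) u :=
    ((ContinuousLinearMap.apply ℂ (Fin n → ℂ) (Pi.single k (1 : ℂ) : Fin n → ℂ)).analyticAt _).comp
      h3
  exact (ContinuousLinearMap.proj (R := ℂ) (φ := fun _ : Fin n => ℂ) (σ k)).analyticAt _ |>.comp h4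

private theorem eval_comp {N r : ℕ} {F : Fin (r + 2) → MvPolynomial (Fin (N + 1)) ℂ}
    (y : Fin (N + 1) → ℂ) (Q : MvPolynomial (Fin (r + 2)) ℂ) :
    eval (fun a => eval y (F a)) Q = eval y (aeval F Q) := by
  induction Q using MvPolynomial.induction_on with
  | C a => simp
  | add p q hp hq => rw [map_add, map_add, map_add, hp, hq]
  | mul_X p i hp => rw [map_mul, map_mul, map_mul, hp, eval_X, aeval_X]

theorem jac_bound {N r e k : ℕ} {P : Ideal (MvPolynomial (Fin (N + 1)) ℂ)} (hP : Homog P)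
    {F : Fin (r + 2) → MvPolynomial (Fin (N + 1)) ℂ} (hF : BaseFree P e F)
    {G : Fin k → MvPolynomial (Fin (r + 2)) ℂ} (hG : ∀ j, Irreducible (G j))
    (hGG : ∀ i j, i ≠ j → ¬ G i ∣ G j) (hram : ∀ j, RamM 2 P (aeval F (G j)))
    {x : Fin (N + 1) → ℂ} (hx0 : x ≠ 0) {I : Fin (r + 2) → Fin (N + 1)}
    {τ : (Fin (r + 2) → ℂ) → Fin (N + 1) → ℂ} (hτ : AnalyticAt ℂ τ 0) (hτ0 : τ 0 = x)
    (hchart : ∀ᶠ u in 𝓝 0, (∀ Q ∈ P, eval (τ u) Q = 0) ∧ ∀ k, τ u (I k) = x (I k) + u k)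
    (hnz : ¬ ∀ᶠ u in 𝓝 0, eval (τ u) (aeval F (∏ j, G j)) = 0) :
    ∃ C : ℝ, 0 ≤ C ∧ ∀ᶠ u in 𝓝 0,
      ‖(fderiv ℂ (fun u' a => eval (τ u') (F a)) u).det‖ ^ 2 ≤
        C * ∏ j, ‖eval (fun a => eval (τ u) (F a)) (G j)‖ := by
  classical
  obtain ⟨Φ, hΦdef⟩ : ∃ Φ : (Fin (r + 2) → ℂ) → Fin (r + 2) → ℂ,
    Φ = fun u a => eval (τ u) (F a) := ⟨_, rfl⟩
  have hev : ∀ u (Q : MvPolynomial (Fin (r + 2)) ℂ), eval (Φ u) Q = eval (τ u) (aeval F Q) := by
    intro u Q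
    rw [hΦdef]
    exact eval_comp (τ u) Q
  have hΦan : ∀ u, AnalyticAt ℂ τ u → AnalyticAt ℂ Φ u := by
    intro u hu
    rw [hΦdef]
    refine AnalyticAt.pi fun a => ?_
    have h1 : AnalyticAt ℂ (fun y : Fin (N + 1) → ℂ => eval y (F a)) (τ u) :=
      AnalyticOnNhd.eval_mvPolynomial (F a) _ (Set.mem_univ _)
    exact h1.comp hu
  have hevan : ∀ u, AnalyticAt ℂ τ u → ∀ Q : MvPolynomial (Fin (r + 2)) ℂ,
      AnalyticAt ℂ (fun u' => eval (Φ u') Q) u := by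
    intro u hu Q
    have h1 : AnalyticAt ℂ (fun y : Fin (r + 2) → ℂ => eval y Q) (Φ u) :=
      AnalyticOnNhd.eval_mvPolynomial Q _ (Set.mem_univ _)
    exact h1.comp (hΦan u hu)
  choose b hb using fun j => exists_pderiv (hG j)
  -- the bad set
  obtain ⟨bad, hbad⟩ : ∃ bad : (Fin (N + 1) → ℂ) → Prop, ∀ y, bad y ↔
      (∃ i j, i ≠ j ∧ eval y (aeval F (G i)) = 0 ∧ eval y (aeval F (G j)) = 0) ∨
      ∃ j, eval y (aeval F (G j)) = 0 ∧ eval y (aeval F (pderiv (b j) (G j))) = 0 :=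
    ⟨_, fun y => Iff.rfl⟩
  obtain ⟨Z, hZdef⟩ : ∃ Z : Set (Fin (r + 2) → ℂ), ∀ u, u ∈ Z ↔
      (∀ Q ∈ P, eval (τ u) Q = 0) ∧ (∀ k, τ u (I k) = x (I k) + u k) ∧ bad (τ u) :=
    ⟨{u | _}, fun u => Iff.rfl⟩
  have hw : AnalyticAt ℂ (fun u => (fderiv ℂ Φ u).det ^ 2) 0 := (analyticAt_det (hΦan 0 hτ)).pow 2
  have hHan : ∀ u, AnalyticAt ℂ τ u → AnalyticAt ℂ (fun u => ∏ j, eval (Φ u) (G j)) u := by
    intro u hu
    exact Finset.analyticAt_fun_prod _ fun j _ => hevan u hu (G j)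
  have hne : ¬ ∀ᶠ u in 𝓝 (0 : Fin (r + 2) → ℂ), ∏ j, eval (Φ u) (G j) = 0 := by
    intro hcon
    apply hnz
    filter_upwards [hcon] with u hu
    rw [map_prod, map_prod]
    simpa only [hev] using hu
  have hτne : ∀ᶠ u in 𝓝 (0 : Fin (r + 2) → ℂ), τ u ≠ 0 := by
    refine hτ.continuousAt.eventually_ne ?_
    rw [hτ0]
    exact hx0
  have hloc : ∀ᶠ u in 𝓝 (0 : Fin (r + 2) → ℂ), u ∉ Z → ∃ C : ℝ, ∀ᶠ u' in 𝓝 u,
      ‖(fderiv ℂ Φ u').det ^ 2‖ ≤ C * ‖∏ j, eval (Φ u') (G j)‖ := by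
    filter_upwards [hτ.eventually_analyticAt, eventually_eventually_nhds.2 hτ.eventually_analyticAt,
      eventually_eventually_nhds.2 hτne, eventually_eventually_nhds.2 hchart] with u h1 h1' h2 h3 hu
    by_cases hH0 : ∏ j, eval (Φ u) (G j) = 0
    · rw [Finset.prod_eq_zero_iff] at hH0
      obtain ⟨j, -, hj⟩ := hH0
      have h4 := h3.self_of_nhds
      have hnb : ¬ bad (τ u) := fun hcon => hu ((hZdef u).2 ⟨h4.1, h4.2, hcon⟩)
      rw [hbad] at hnb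
      push Not at hnb
      obtain ⟨hn1, hn2⟩ := hnb
      rw [hev] at hj
      have hd : eval (Φ u) (pderiv (b j) (G j)) ≠ 0 := by
        rw [hev]
        exact hn2 j hj
      obtain ⟨C₁, hC₁, h5⟩ := jac_sq_le (hΦan u h1) (b j) hd (by
        filter_upwards [h1', h2, eventually_eventually_nhds.2 h3] with u' h6 h7 h8 h9
        rw [hev] at h9
        have h10 := fderiv_eq_zero_of_ramM (hram j) h6 (h8.mono fun _ h => h.1) h7 h9
        have h11 : (fun u' => eval (Φ u') (G j)) = fun u' => eval (τ u') (aeval F (G j)) :=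
          funext fun u' => hev u' (G j)
        rw [h11]
        exact h10)
      have hrest : ∏ i ∈ Finset.univ.erase j, eval (Φ u) (G i) ≠ 0 := by
        refine Finset.prod_ne_zero_iff.2 fun i hi => ?_
        rw [hev]
        intro hcon
        exact hn1 i j (Finset.ne_of_mem_erase hi) hcon hj
      have hcont : ContinuousAt (fun u => ∏ i ∈ Finset.univ.erase j, eval (Φ u) (G i)) u :=
        (Finset.analyticAt_fun_prod _ fun i _ => hevan u h1 (G i)).continuousAt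
      obtain ⟨C₂, hC₂, h6⟩ := bound_of_ne (w := fun _ => (1 : ℂ)) continuousAt_const hcont hrest
      refine ⟨C₁ * C₂, ?_⟩
      filter_upwards [h5, h6] with u' h7 h8
      rw [norm_one] at h8
      rw [norm_pow, ← Finset.mul_prod_erase Finset.univ _ (Finset.mem_univ j), norm_mul]
      calc ‖(fderiv ℂ Φ u').det‖ ^ 2 ≤ C₁ * ‖eval (Φ u') (G j)‖ := h7
        _ = C₁ * ‖eval (Φ u') (G j)‖ * 1 := (mul_one _).symm
        _ ≤ C₁ * ‖eval (Φ u') (G j)‖ *
            (C₂ * ‖∏ i ∈ Finset.univ.erase j, eval (Φ u') (G i)‖) :=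
          mul_le_mul_of_nonneg_left h8 (mul_nonneg hC₁ (norm_nonneg _))
        _ = _ := by ring
    · obtain ⟨C, -, hC⟩ := bound_of_ne (w := fun u => (fderiv ℂ Φ u).det ^ 2)
        ((analyticAt_det (hΦan u h1)).pow 2).continuousAt (hHan u h1).continuousAt hH0
      exact ⟨C, hC⟩
  have hZ : ∀ v : Fin (r + 2) → ℂ, v ≠ 0 → ∃ D : Set (Fin (r + 2) → ℂ), Dense D ∧
      ∀ u ∈ D, ∀ t : ℂ, u + t • v ∉ Z := by
    intro v hv
    obtain ⟨b', hb'⟩ : ∃ b', v b' ≠ 0 := Function.ne_iff.1 hv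
    obtain ⟨Λ, hΛ⟩ : ∃ Λ : Fin (r + 1) → MvPolynomial (Fin (N + 1)) ℂ, Λ = fun a =>
      X (I (b'.succAbove a)) - C (v (b'.succAbove a) / v b') * X (I b') := ⟨_, rfl⟩
    have hR1 : ∀ i j, ∃ R : MvPolynomial (Fin (r + 1)) ℂ, R ≠ 0 ∧ (i ≠ j →
        ∀ y : Fin (N + 1) → ℂ, (∀ Q ∈ P, eval y Q = 0) → eval y (aeval F (G i)) = 0 →
          eval y (aeval F (G j)) = 0 → eval (fun a => eval y (Λ a)) R = 0) := by
      intro i j
      by_cases hij : i = j
      · exact ⟨1, one_ne_zero, fun h => absurd hij h⟩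
      · obtain ⟨R, hR, h⟩ := exists_rel hP hF (hG i) (hGG i j hij) Λ
        exact ⟨R, hR, fun _ => h⟩
    choose R₁ hR₁ hR₁' using hR1
    choose R₂ hR₂ hR₂' using fun j => exists_rel hP hF (hG j) (hb j) Λ
    obtain ⟨R, hRdef⟩ : ∃ R, R = (∏ i, ∏ j, R₁ i j) * ∏ j, R₂ j := ⟨_, rfl⟩
    have hR : R ≠ 0 := by
      rw [hRdef]
      exact mul_ne_zero (Finset.prod_ne_zero_iff.2 fun i _ => Finset.prod_ne_zero_iff.2
        fun j _ => hR₁ i j) (Finset.prod_ne_zero_iff.2 fun j _ => hR₂ j)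
    refine ⟨_, dense_lines hb' hR (fun a => eval x (Λ a)), ?_⟩
    intro u hu t hcon
    apply hu
    obtain ⟨h1, h2, h3⟩ := (hZdef _).1 hcon
    have h4 : (fun a => eval x (Λ a) + linMod v b' u a) =
        fun a => eval (τ (u + t • v)) (Λ a) := by
      funext a
      rw [← linMod_add hb' u t, hΛ]
      simp only [map_sub, map_mul, eval_X, eval_C, h2, linMod]
      ring
    rw [h4, hRdef, map_mul, map_prod, map_prod]
    rcases (hbad _).1 h3 with ⟨i, j, hij, h5, h6⟩ | ⟨j, h5, h6⟩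
    · refine mul_eq_zero_of_left (Finset.prod_eq_zero (Finset.mem_univ i) ?_) _
      rw [map_prod]
      exact Finset.prod_eq_zero (Finset.mem_univ j) (hR₁' i j hij _ h1 h5 h6)
    · exact mul_eq_zero_of_right _ (Finset.prod_eq_zero (Finset.mem_univ j) (hR₂' j _ h1 h5 h6))
  obtain ⟨C, hC0, hC⟩ := hartogs hw (hHan 0 hτ) hne Z hloc hZ
  refine ⟨C, hC0, ?_⟩
  filter_upwards [hC] with u hu
  rw [norm_pow, norm_prod] at hu
  rw [hΦdef] at hu
  exact hu

end Pool.Agent.H39.SX
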