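import Mathlib

/-!
# The maximum principle for a quotient

PROOF.  Let `q` be the meromorphic function `w / h` on the closed ball (`h` is not identically zero near any point of the closed ball, by the
identity theorem and `hcs`).  At a zero `z` of `h` the order of `w` is at least that of `h` by `hloc` (or: `q` is bounded in a punctured
neighbourhood), so the normal form `toMeromorphicNFOn q U` (`U` = the set of the points where `w` and `h` are analytic, or the closed ball) is
analytic on the closed ball; it is equal to `w / h` where `h ≠ 0`.  `Complex.norm_le_of_forall_mem_frontier_norm_le`: `‖q‖ ≤ A / c` on the ball.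
At the zeros of `h` also `w z = 0` (by `hloc` at `z` itself), so the claim is trivial there.
(Alternative: divide `w` and `h` by the product of the `(z - z_i) ^ m_i` over the finitely many zeros.)
-/

open Topology Filter

noncomputable section

namespace Pool.Agent.H39.SX

theorem norm_le_of_quotient {w h : ℂ → ℂ} {R A c : ℝ} (hR : 0 < R)
    (hw : ∀ z ∈ Metric.closedBall (0 : ℂ) R, AnalyticAt ℂ w z)
    (hh : ∀ z ∈ Metric.closedBall (0 : ℂ) R, AnalyticAt ℂ h z)
    (hA : ∀ z ∈ Metric.sphere (0 : ℂ) R, ‖w z‖ ≤ A) (hc : 0 < c)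
    (hcs : ∀ z ∈ Metric.sphere (0 : ℂ) R, c ≤ ‖h z‖)
    (hloc : ∀ z ∈ Metric.ball (0 : ℂ) R, h z = 0 → ∃ C : ℝ, ∀ᶠ t in 𝓝 z, ‖w t‖ ≤ C * ‖h t‖) :
    ∀ z ∈ Metric.closedBall (0 : ℂ) R, ‖w z‖ ≤ A / c * ‖h z‖ := by
  obtain ⟨q, hq⟩ : ∃ q : ℂ → ℂ, q = fun z => w z / h z := ⟨_, rfl⟩
  have hmer : MeromorphicOn q (Metric.closedBall (0 : ℂ) R) := by
    intro z hz
    rw [hq]
    exact (hw z hz).meromorphicAt.div (hh z hz).meromorphicAt
  have hne : ∀ z ∈ Metric.sphere (0 : ℂ) R, h z ≠ 0 := by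
    intro z hz h0
    have h1 := hcs z hz
    rw [h0, norm_zero] at h1
    linarith
  have hball : ∀ z ∈ Metric.closedBall (0 : ℂ) R, h z = 0 → z ∈ Metric.ball (0 : ℂ) R := by
    intro z hz h0
    by_contra hcon
    refine hne z ?_ h0
    rw [Metric.mem_sphere]
    rw [Metric.mem_closedBall] at hz
    rw [Metric.mem_ball, not_lt] at hcon
    exact le_antisymm hz hcon
  have hanq : ∀ z ∈ Metric.closedBall (0 : ℂ) R, h z ≠ 0 → AnalyticAt ℂ q z := by
    intro z hz h0
    rw [hq]
    exact (hw z hz).div (hh z hz) h0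
  have hord : ∀ z ∈ Metric.closedBall (0 : ℂ) R, 0 ≤ meromorphicOrderAt q z := by
    intro z hz
    by_cases h0 : h z = 0
    · by_contra hcon
      rw [not_le] at hcon
      have h1 := tendsto_cobounded_of_meromorphicOrderAt_neg hcon
      rw [← tendsto_norm_atTop_iff_cobounded] at h1
      obtain ⟨C, hC⟩ := hloc z (hball z hz h0) h0
      have h2 := h1.eventually_gt_atTop (max C 0)
      have h3 : ∀ᶠ t in 𝓝[≠] z, ‖w t‖ ≤ C * ‖h t‖ := hC.filter_mono nhdsWithin_le_nhds
      obtain ⟨t, ht1, ht2⟩ := (h2.and h3).exists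
      rw [hq] at ht1
      have ht1' : max C 0 < ‖w t / h t‖ := ht1
      rw [norm_div] at ht1'
      by_cases h4 : h t = 0
      · rw [h4, norm_zero, div_zero] at ht1'
        exact absurd ht1' (not_lt.2 (le_max_right _ _))
      · have h5 : 0 < ‖h t‖ := norm_pos_iff.2 h4
        have h6 : ‖w t‖ / ‖h t‖ ≤ C := by
          rw [div_le_iff₀ h5]
          exact ht2
        exact absurd ht1' (not_lt.2 (h6.trans (le_max_left _ _)))
    · exact (hanq z hz h0).meromorphicOrderAt_nonneg
  obtain ⟨Q, hQ⟩ : ∃ Q : ℂ → ℂ, Q = toMeromorphicNFOn q (Metric.closedBall (0 : ℂ) R) :=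
    ⟨_, rfl⟩
  have hQan : ∀ z ∈ Metric.closedBall (0 : ℂ) R, AnalyticAt ℂ Q z := by
    intro z hz
    have h1 : MeromorphicNFAt Q z := by
      rw [hQ]
      exact meromorphicNFOn_toMeromorphicNFOn q _ hz
    rw [← h1.meromorphicOrderAt_nonneg_iff_analyticAt, hQ,
      meromorphicOrderAt_toMeromorphicNFOn hmer hz]
    exact hord z hz
  have hQq : ∀ z ∈ Metric.closedBall (0 : ℂ) R, h z ≠ 0 → Q z = w z / h z := by
    intro z hz h0
    rw [hQ, toMeromorphicNFOn_eq_toMeromorphicNFAt hmer hz,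
      toMeromorphicNFAt_eq_self.2 (hanq z hz h0).meromorphicNFAt, hq]
  have hA0 : ∀ z ∈ Metric.sphere (0 : ℂ) R, ‖Q z‖ ≤ A / c := by
    intro z hz
    rw [hQq z (Metric.sphere_subset_closedBall hz) (hne z hz), norm_div]
    exact div_le_div₀ ((norm_nonneg _).trans (hA z hz)) (hA z hz) hc (hcs z hz)
  have hdc : DiffContOnCl ℂ Q (Metric.ball (0 : ℂ) R) := by
    refine ⟨fun z hz => ((hQan z (Metric.ball_subset_closedBall hz)).differentiableAt
      ).differentiableWithinAt, ?_⟩
    rw [closure_ball _ hR.ne']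
    exact fun z hz => (hQan z hz).continuousAt.continuousWithinAt
  have hmax : ∀ z ∈ Metric.closedBall (0 : ℂ) R, ‖Q z‖ ≤ A / c := by
    intro z hz
    refine Complex.norm_le_of_forall_mem_frontier_norm_le Metric.isBounded_ball hdc ?_
      (by rw [closure_ball _ hR.ne']; exact hz)
    rw [frontier_ball _ hR.ne']
    exact hA0
  intro z hz
  by_cases h0 : h z = 0
  · obtain ⟨C, hC⟩ := hloc z (hball z hz h0) h0
    have h1 := hC.self_of_nhds
    rw [h0, norm_zero, mul_zero] at h1 ⊢
    exact h1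
  · have h1 := hmax z hz
    rw [hQq z hz h0, norm_div, div_le_iff₀ (norm_pos_iff.2 h0)] at h1
    exact h1

end Pool.Agent.H39.SX
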