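import Mathlib

/-!
# Functions of one variable without simple zeros

PROOF.  Let `a = ‖h' z₀‖`, `b = ‖h z₀‖` and suppose `(8 M + 4 a / R) b < a ^ 2`.  Then `a > 0`, `8 M b < a ^ 2`, `4 b / a < R`; `b = 0` would
give `a = 0` by `h0`, so `b > 0`.  Let `s = 4 b / a`.  On the closed ball of radius `s` one has `‖h' z - h' z₀‖ ≤ M s` (mean value inequality,
`Convex.norm_image_sub_le_of_norm_deriv_le`), so `‖h z - h z₀ - h' z₀ (z - z₀)‖ ≤ M s ^ 2` (the same for `h z - h' z₀ * z`), and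
`‖h z - h z₀‖ ≥ ε := a s - M s ^ 2 = 4 b - 16 M b ^ 2 / a ^ 2 > 2 b` on the sphere.  By `DiffContOnCl.ball_subset_image_closedBall` the function
`h` has a zero `z₁` in the closed ball (`h z₀ ≠ h z` near `z₀`, as `h' z₀ ≠ 0`: `HasDerivAt.eventually_ne`), and
`‖h' z₁‖ ≥ a - M s = a - 4 M b / a > a / 2 > 0`, against `h0`.
-/

open Topology Filter

noncomputable section

namespace Pool.Agent.H39.SX

theorem sq_norm_deriv_le {h : ℂ → ℂ} {z₀ : ℂ} {R M : ℝ} (hR : 0 < R) (hM : 0 ≤ M)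
    (hd : ∀ z ∈ Metric.closedBall z₀ R, AnalyticAt ℂ h z)
    (h2 : ∀ z ∈ Metric.closedBall z₀ R, ‖deriv (deriv h) z‖ ≤ M)
    (h0 : ∀ z ∈ Metric.closedBall z₀ R, h z = 0 → deriv h z = 0) :
    ‖deriv h z₀‖ ^ 2 ≤ (8 * M + 4 * ‖deriv h z₀‖ / R) * ‖h z₀‖ := by
  by_contra hcon
  push Not at hcon
  set a := ‖deriv h z₀‖ with ha
  set b := ‖h z₀‖ with hb
  have ha0 : 0 ≤ a := norm_nonneg _
  have hb0 : 0 ≤ b := norm_nonneg _
  have hz₀ : z₀ ∈ Metric.closedBall z₀ R := Metric.mem_closedBall_self hR.le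
  have hMb : 0 ≤ M * b := mul_nonneg hM hb0
  have hapos : 0 < a := by
    rcases ha0.lt_or_eq with h' | h'
    · exact h'
    · exfalso
      rw [← h'] at hcon
      simp only [mul_zero, zero_div, add_zero] at hcon
      nlinarith
  have hab : 0 ≤ 4 * a / R * b := by positivity
  have h8 : 8 * M * b < a ^ 2 := by nlinarith
  have h4 : 4 * b / a < R := by
    have h41 : 4 * a / R * b < a ^ 2 := by nlinarith
    rw [div_lt_iff₀ hapos]
    have h42 : 4 * a / R * b = a * (4 * b / R) := by ring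
    rw [h42, pow_two] at h41
    have h43 : 4 * b / R < a := lt_of_mul_lt_mul_left h41 ha0
    rw [div_lt_iff₀ hR] at h43
    linarith
  have hbpos : 0 < b := by
    rcases hb0.lt_or_eq with h' | h'
    · exact h'
    · exfalso
      have h1 : h z₀ = 0 := norm_eq_zero.1 h'.symm
      have h3 := h0 z₀ hz₀ h1
      rw [ha, h3, norm_zero] at hapos
      exact lt_irrefl _ hapos
  set s := 4 * b / a with hs
  have hspos : 0 < s := by positivity
  have hsub : Metric.closedBall z₀ s ⊆ Metric.closedBall z₀ R := Metric.closedBall_subset_closedBall h4.le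
  have hz₀s : z₀ ∈ Metric.closedBall z₀ s := Metric.mem_closedBall_self hspos.le
  have hconv : Convex ℝ (Metric.closedBall z₀ s) := convex_closedBall z₀ s
  have hM1 : ∀ z ∈ Metric.closedBall z₀ s, ‖deriv h z - deriv h z₀‖ ≤ M * s := by
    intro z hz
    have h1 := hconv.norm_image_sub_le_of_norm_deriv_le (f := deriv h) (C := M)
      (fun x hx => (hd x (hsub hx)).deriv.differentiableAt) (fun x hx => h2 x (hsub hx)) hz₀s hz
    refine h1.trans (mul_le_mul_of_nonneg_left ?_ hM)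
    rw [← dist_eq_norm]
    exact Metric.mem_closedBall.1 hz
  have hM2 : ∀ z ∈ Metric.closedBall z₀ s, ‖h z - h z₀ - deriv h z₀ * (z - z₀)‖ ≤ M * s * ‖z - z₀‖ := by
    intro z hz
    have h1 := hconv.norm_image_sub_le_of_norm_hasDerivWithin_le (f := fun w => h w - deriv h z₀ * w)
      (f' := fun w => deriv h w - deriv h z₀) (C := M * s)
      (fun x hx => by
        have h5 : HasDerivAt h (deriv h x) x := (hd x (hsub hx)).differentiableAt.hasDerivAt
        have h6 : HasDerivAt (fun w : ℂ => deriv h z₀ * w) (deriv h z₀ * 1) x := (hasDerivAt_id x).const_mul _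
        rw [mul_one] at h6
        exact (h5.sub h6).hasDerivWithinAt) (fun x hx => hM1 x hx) hz₀s hz
    have h7 : h z - h z₀ - deriv h z₀ * (z - z₀) = h z - deriv h z₀ * z - (h z₀ - deriv h z₀ * z₀) := by ring
    rw [h7]
    exact h1
  have hdc : DiffContOnCl ℂ h (Metric.ball z₀ s) := by
    have h1 : DifferentiableOn ℂ h (Metric.closedBall z₀ s) := fun x hx =>
      (hd x (hsub hx)).differentiableAt.differentiableWithinAt
    exact h1.diffContOnCl_ball subset_rfl
  have hfr : ∃ᶠ z in 𝓝 z₀, h z ≠ h z₀ := by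
    have h5 : HasDerivAt h (deriv h z₀) z₀ := (hd z₀ hz₀).differentiableAt.hasDerivAt
    have h6 : deriv h z₀ ≠ 0 := norm_pos_iff.1 hapos
    have h7 : ∀ᶠ z in 𝓝[≠] z₀, h z ≠ h z₀ := h5.eventually_ne h6
    exact h7.frequently.filter_mono nhdsWithin_le_nhds
  have hMs : M * s = 4 * M * b / a := by
    rw [hs]; ring
  have hMsa : M * s < a / 2 := by
    rw [hMs, div_lt_iff₀ hapos]
    nlinarith
  have hsph : ∀ z ∈ Metric.sphere z₀ s, a * s - M * s * s ≤ ‖h z - h z₀‖ := by
    intro z hz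
    have hz1 : ‖z - z₀‖ = s := by
      rw [← dist_eq_norm]
      exact Metric.mem_sphere.1 hz
    have h1 := hM2 z (Metric.sphere_subset_closedBall hz)
    rw [hz1] at h1
    have h3 : ‖deriv h z₀ * (z - z₀)‖ = a * s := by rw [norm_mul, hz1]
    have h5 : deriv h z₀ * (z - z₀) = (h z - h z₀) - (h z - h z₀ - deriv h z₀ * (z - z₀)) := by ring
    have h6 : ‖deriv h z₀ * (z - z₀)‖ ≤ ‖h z - h z₀‖ + ‖h z - h z₀ - deriv h z₀ * (z - z₀)‖ := by
      conv_lhs => rw [h5]
      exact norm_sub_le _ _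
    rw [h3] at h6
    linarith
  have himg := hdc.ball_subset_image_closedBall hspos hsph hfr
  have has : a * s = 4 * b := by
    rw [hs]
    field_simp
  have hmem : (0 : ℂ) ∈ Metric.ball (h z₀) ((a * s - M * s * s) / 2) := by
    rw [Metric.mem_ball, dist_eq_norm, zero_sub, norm_neg, ← hb]
    have h1 : M * s * s < a / 2 * s := mul_lt_mul_of_pos_right hMsa hspos
    nlinarith
  obtain ⟨z₁, hz₁, hz₁0⟩ := himg hmem
  have h9 := h0 z₁ (hsub hz₁) hz₁0
  have h10 := hM1 z₁ hz₁
  rw [h9, zero_sub, norm_neg, ← ha] at h10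
  linarith

end Pool.Agent.H39.SX
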